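import Pool.Agent.Y230.TH.Stm
import Pool.Agent.Y230.PS.Force

set_option autoImplicit false
set_option linter.unusedSectionVars false
set_option linter.unusedVariables false

/-! # The jets of a functional equation of a Thom-Sebastiani sum -/

namespace Pool.Agent.Y230.TH

open MvPolynomial
open Pool.Agent.W574.SM Pool.Agent.W574.HS Pool.Agent.W574.RO Pool.Agent.Y230.PS
open Pool.Agent.H628R4.TP (IsBFunction)

variable {σ τ ι : Type} [Fintype ι] [DecidableEq ι]

/-- `k ↦ b(k) g ^ k` -/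
noncomputable def mg (g : MvPolynomial τ ℂ) : Polynomial ℂ →ₗ[ℂ] (ℕ → MvPolynomial τ ℂ) where
  toFun b := fun k => b.eval (k : ℂ) • g ^ k
  map_add' a b := by
    funext k
    rw [Polynomial.eval_add, add_smul]
    rfl
  map_smul' r b := by
    funext k
    rw [Polynomial.eval_smul, smul_assoc]
    rfl

theorem dvd_of_succ (β : ℂ) (n : ℕ) (q : Polynomial ℂ)
    (h : (Polynomial.X - Polynomial.C β) ^ (n + if β = -1 then 1 else 0) ∣
      (Polynomial.X + 1) * q) : (Polynomial.X - Polynomial.C β) ^ n ∣ q := by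
  by_cases hβ : β = -1
  · have e : (Polynomial.X + 1 : Polynomial ℂ) = Polynomial.X - Polynomial.C β := by
      rw [hβ, Polynomial.C_neg, sub_neg_eq_add, Polynomial.C_1]
    rw [if_pos hβ, e, pow_succ'] at h
    exact (mul_dvd_mul_iff_left (Polynomial.X_sub_C_ne_zero β)).1 h
  · rw [if_neg hβ, add_zero] at h
    refine (Polynomial.prime_X_sub_C β).pow_dvd_of_dvd_mul_left _ (fun h1 => hβ ?_) h
    rw [Polynomial.dvd_iff_isRoot, Polynomial.IsRoot.def, Polynomial.eval_add, Polynomial.eval_X,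
      Polynomial.eval_one] at h1
    exact eq_neg_of_add_eq_zero_left h1

theorem exists_psi (hA : StA) (g : MvPolynomial τ ℂ) (hg : g ≠ 0) (β : ℂ) (n : ℕ)
    (hβ : FMB g β (n + if β = -1 then 1 else 0)) (j : ℕ) (hj : j < n) :
    ∃ ψ : (ℕ → MvPolynomial τ ℂ) →ₗ[ℂ] ℂ, (∀ v ∈ W g, ψ v = 0) ∧
      ∀ b : Polynomial ℂ, ψ (mg g b) = (Polynomial.taylor β b).coeff j := by
  classical
  set L : Polynomial ℂ →ₗ[ℂ] ℂ := (Polynomial.lcoeff ℂ j).comp (Polynomial.taylor β) with hL
  set π : Polynomial ℂ →ₗ[ℂ] ((ℕ → MvPolynomial τ ℂ) ⧸ W g) := (W g).mkQ.comp (mg g) with hπ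
  have hker : LinearMap.ker π ≤ LinearMap.ker L := by
    intro q hq
    have h1 : mg g q ∈ W g := by
      have : (W g).mkQ (mg g q) = 0 := hq
      rwa [Submodule.mkQ_apply, Submodule.Quotient.mk_eq_zero] at this
    have h2 := dvd_of_succ β n q (hβ _ (hA g hg q h1))
    exact (dvd_iff_taylor β n q).1 h2 j hj
  obtain ⟨ψ, hψ⟩ : ∃ ψ : ((ℕ → MvPolynomial τ ℂ) ⧸ W g) →ₗ[ℂ] ℂ, ψ.comp π = L := by
    obtain ⟨s, hs⟩ := LinearMap.exists_rightInverse_of_surjective π.rangeRestrict
      (LinearMap.range_rangeRestrict π)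
    obtain ⟨ψ, hψ⟩ := LinearMap.exists_extend (p := LinearMap.range π) (L.comp s)
    refine ⟨ψ, LinearMap.ext fun q => ?_⟩
    have h1 : ψ (π q) = (L.comp s) (π.rangeRestrict q) := by
      rw [← hψ]
      rfl
    change ψ (π q) = L q
    rw [h1, LinearMap.comp_apply]
    have h2 : s (π.rangeRestrict q) - q ∈ LinearMap.ker π := by
      rw [LinearMap.mem_ker, map_sub]
      have h3 := LinearMap.congr_fun hs (π.rangeRestrict q)
      have h4 := congrArg Subtype.val h3
      change π (s (π.rangeRestrict q)) = π q at h4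
      rw [h4, sub_self]
    have h3 := hker h2
    rw [LinearMap.mem_ker, map_sub, sub_eq_zero] at h3
    exact h3
  refine ⟨ψ.comp (W g).mkQ, fun v hv => ?_, fun b => ?_⟩
  · rw [LinearMap.comp_apply, Submodule.mkQ_apply, (Submodule.Quotient.mk_eq_zero _).2 hv, map_zero]
  · have := LinearMap.congr_fun hψ b
    exact this

/-- the product of the factorials -/
noncomputable def cfc (c : ι → ℤ) : ℂ := ∏ j, (((-c j).toNat.factorial : ℕ) : ℂ)

theorem fall_eq (c : ι → ℤ) (s : ι → ℕ) :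
    (fall c (Finsupp.equivFunOnFinite.symm s) : ℂ) = cfc c *
      ((∏ j, (if c j < 0 then (s j).choose (-c j).toNat else 1) : ℕ) : ℂ) := by
  have : fall c (Finsupp.equivFunOnFinite.symm s) = (∏ j, (-c j).toNat.factorial) *
      ∏ j, (if c j < 0 then (s j).choose (-c j).toNat else 1) := by
    rw [fall, ← Finset.prod_mul_distrib]
    refine Finset.prod_congr rfl fun j _ => ?_
    change (s j).descFactorial _ = _
    split_ifs with h
    · rw [Nat.descFactorial_eq_factorial_mul_choose]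
    · have h0 : (-c j).toNat = 0 := by omega
      rw [h0]; simp
  rw [this, cfc]
  push_cast
  rfl

theorem coeff_gen (f : ι → MvPolynomial σ ℂ) (q : MvPolynomial ι ℂ) (A : weyl σ) (c : ι → ℤ)
    (s : ι → ℕ) (mon : σ →₀ ℕ) :
    coeff mon (gen f (tens (C (cfc c) * q) A) c s) =
      (evN (Finsupp.equivFunOnFinite.symm s) q * (fall c (Finsupp.equivFunOnFinite.symm s) : ℂ)) *
        coeff mon ((A : Module.End ℂ (MvPolynomial σ ℂ))
          (∏ j, f j ^ (sh (Finsupp.equivFunOnFinite.symm s) c) j)) := by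
  have hA : ∀ (a : ℂ) (P : MvPolynomial σ ℂ), (A : Module.End ℂ (MvPolynomial σ ℂ)) (C a * P) =
      a • (A : Module.End ℂ (MvPolynomial σ ℂ)) P := fun a P => by rw [C_mul', map_smul]
  rw [gen, applyAt_tens, gterm, hA, smul_smul, coeff_smul, fall_eq, map_mul, eval_C,
    smul_eq_mul]
  have e : eval (fun j => (s j : ℂ)) q = evN (Finsupp.equivFunOnFinite.symm s) q := rfl
  have e2 : (∏ j, f j ^ ((s j : ℤ) + c j).toNat) =
      ∏ j, f j ^ (sh (Finsupp.equivFunOnFinite.symm s) c) j := rfl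
  rw [e, e2]
  ring

theorem mem_W_of_le (g : MvPolynomial τ ℂ) (t : ℕ) (d : ℤ) (hd : d ≤ 0) (B : weyl τ) :
    (fun k : ℕ => ((k : ℂ) ^ t * kd k d) • (B : Module.End ℂ (MvPolynomial τ ℂ))
      (g ^ ((k : ℤ) + 1 - d).toNat)) ∈ W g := by
  refine Submodule.subset_span ⟨t, (1 - d).toNat, B, by omega, ?_⟩
  funext k
  have e : ((k : ℤ) + 1 - d).toNat = k + (1 - d).toNat := by omega
  rw [kd, if_neg (by omega), e, kf]

/-- **The jets.** -/
theorem ts_jet (hA : StA) (hB : StB) [DecidableEq σ] [DecidableEq τ] (f : ι → MvPolynomial σ ℂ)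
    (hf : ∃ j, f j ≠ 0)
    (g : MvPolynomial τ ℂ) (hg : g ≠ 0) (b : Polynomial ℂ)
    (hb : IsBFunction (univ (fun j => rename Sum.inl (f j)) + rename Sum.inr (rename Sum.inr g) :
      MvPolynomial (ι ⊕ (σ ⊕ τ)) ℂ) b) :
    ∃ b' : Polynomial ℂ, b = (Polynomial.X + 1) * b' ∧ ∀ (β : ℂ) (n : ℕ),
      FMB g β (n + if β = -1 then 1 else 0) → ∀ j < n,
        IsFunctionalEq f (Polynomial.taylor β (Polynomial.hasseDeriv j b')) := by
  classical
  have hne : ∃ j, (fun j => (rename Sum.inl (f j) : MvPolynomial (σ ⊕ τ) ℂ)) j ≠ 0 := by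
    obtain ⟨j, hj⟩ := hf
    exact ⟨j, fun h => hj ((map_eq_zero_iff _ (rename_injective _ Sum.inl_injective)).1 h)⟩
  obtain ⟨b', hb', κ, _, c, q, m, R, hR⟩ := hB (fun j => rename Sum.inl (f j)) (rename Sum.inr g)
    hne b hb
  refine ⟨b', hb', fun β n hβ j hj => ?_⟩
  obtain ⟨ψ, hψ1, hψ2⟩ := exists_psi hA g hg β n hβ j hj
  choose L A B hAB using fun i => weyl_splits (R i).1 (R i).2
  set z : (i : κ) → ℕ → Fin (L i) → ℂ := fun i t l => ψ (fun k : ℕ =>
    ((k : ℂ) ^ t * kd k (∑ j, c i j)) • (B i l : Module.End ℂ (MvPolynomial τ ℂ))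
      (g ^ ((k : ℤ) + 1 - ∑ j, c i j).toNat)) with hz
  have hz0 : ∀ i t l, ∑ j, c i j ≤ 0 → z i t l = 0 := fun i t l h =>
    hψ1 _ (mem_W_of_le g t _ h _)
  set w : AF σ ι := ∑ i ∈ Finset.univ.filter fun i => 1 ≤ ∑ j, c i j,
    ∑ l, ∑ t ∈ Finset.range (m i + 1), z i (m i - t) l •
      gen f (tens (C (cfc (c i)) * (C ((m i).choose t : ℂ) * (∑ j, X j) ^ t * q i)) (A i l))
        (c i) with hw
  have hwV : w ∈ V f 1 := by
    refine Submodule.sum_mem _ fun i hi => Submodule.sum_mem _ fun l _ =>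
      Submodule.sum_mem _ fun t _ => Submodule.smul_mem _ _ ?_
    exact V_le f _ (Finset.mem_filter.1 hi).2 (gen_mem f _ _ rfl)
  have key : ∀ (s : ι → ℕ) (mon : σ →₀ ℕ),
      ψ (fun k : ℕ => cof mon (b'.eval ((∑ j, s j + k : ℕ) : ℂ) •
        (rename Sum.inl (∏ j, f j ^ s j) * rename Sum.inr (g ^ k)) :
          MvPolynomial (σ ⊕ τ) ℂ)) = coeff mon (w s) := by
    intro s mon
    set s' : ι →₀ ℕ := Finsupp.equivFunOnFinite.symm s with hs'
    have h1 : (fun k : ℕ => cof mon (b'.eval ((∑ j, s j + k : ℕ) : ℂ) •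
        (rename Sum.inl (∏ j, f j ^ s j) * rename Sum.inr (g ^ k)) : MvPolynomial (σ ⊕ τ) ℂ)) =
        ∑ i, ∑ l, ∑ t ∈ Finset.range (m i + 1),
          ((evN s' (C ((m i).choose t : ℂ) * (∑ j, X j) ^ t * q i) * (fall (c i) s' : ℂ)) *
            coeff mon ((A i l : Module.End ℂ (MvPolynomial σ ℂ))
              (∏ j, f j ^ (sh s' (c i)) j))) • (fun k : ℕ =>
          ((k : ℂ) ^ (m i - t) * kd k (∑ j, c i j)) •
            (B i l : Module.End ℂ (MvPolynomial τ ℂ))
              (g ^ ((k : ℤ) + 1 - ∑ j, c i j).toNat)) := by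
      funext k
      have h2 := hR s' k
      have h3 : (∏ j, (rename Sum.inl (f j) : MvPolynomial (σ ⊕ τ) ℂ) ^ s' j) *
          rename Sum.inr g ^ k = rename Sum.inl (∏ j, f j ^ s j) * rename Sum.inr (g ^ k) := by
        rw [map_prod, map_pow]
        congr 1
        refine Finset.prod_congr rfl fun j _ => ?_
        rw [map_pow]
        rfl
      have h4 : (∑ j, s' j + k : ℕ) = ∑ j, s j + k := rfl
      rw [h3, h4] at h2
      rw [h2, map_sum, Finset.sum_apply]
      refine Finset.sum_congr rfl fun i _ => ?_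
      have h5 : (∏ j, (rename Sum.inl (f j) : MvPolynomial (σ ⊕ τ) ℂ) ^ (sh s' (c i)) j) *
          rename Sum.inr g ^ ((k : ℤ) + 1 - ∑ j, c i j).toNat =
          rename Sum.inl (∏ j, f j ^ (sh s' (c i)) j) *
            rename Sum.inr (g ^ ((k : ℤ) + 1 - ∑ j, c i j).toNat) := by
        rw [map_prod, map_pow]
        congr 1
        refine Finset.prod_congr rfl fun j _ => ?_
        rw [map_pow]
      rw [h5, hAB, map_smul, map_sum, Finset.sum_apply, Finset.smul_sum]
      refine Finset.sum_congr rfl fun l _ => ?_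
      rw [cof_mul, Finset.sum_apply]
      have h6 : ((∑ j, s j + k : ℕ) : ℂ) ^ m i = ∑ t ∈ Finset.range (m i + 1),
          ((∑ j, s j : ℕ) : ℂ) ^ t * (k : ℂ) ^ (m i - t) * ((m i).choose t : ℂ) := by
        rw [Nat.cast_add, add_pow]
      rw [h6, Finset.sum_mul, Finset.sum_mul, Finset.sum_smul]
      refine Finset.sum_congr rfl fun t _ => ?_
      rw [Pi.smul_apply, smul_smul, smul_smul]
      congr 1
      have h7 : evN s' (C ((m i).choose t : ℂ) * (∑ j, X j) ^ t * q i) =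
          ((m i).choose t : ℂ) * ((∑ j, s j : ℕ) : ℂ) ^ t * evN s' (q i) := by
        unfold evN
        rw [map_mul, map_mul, eval_C, map_pow, map_sum]
        simp only [eval_X]
        push_cast
        rfl
      rw [h7]
      ring
    rw [h1]
    simp only [map_sum, map_smul]
    rw [hw, Finset.sum_apply, MvPolynomial.coeff_sum, Finset.sum_filter]
    refine Finset.sum_congr rfl fun i _ => ?_
    split_ifs with hi
    · rw [Finset.sum_apply, MvPolynomial.coeff_sum]
      refine Finset.sum_congr rfl fun l _ => ?_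
      rw [Finset.sum_apply, MvPolynomial.coeff_sum]
      refine Finset.sum_congr rfl fun t _ => ?_
      rw [Pi.smul_apply, coeff_smul, coeff_gen, smul_eq_mul, smul_eq_mul, mul_comm]
    · refine Finset.sum_eq_zero fun l _ => Finset.sum_eq_zero fun t _ => ?_
      have := hz0 i (m i - t) l (by omega)
      rw [hz] at this
      beta_reduce at this
      rw [this, smul_zero]
  rw [functionalEq_iff]
  have hfin : mulb (Polynomial.taylor β (Polynomial.hasseDeriv j b')) (G0 f) = w := by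
    funext s
    ext mon
    rw [← key s mon, mulb, coeff_C_mul]
    have h1 : (fun k : ℕ => cof mon (b'.eval ((∑ j, s j + k : ℕ) : ℂ) •
        (rename Sum.inl (∏ j, f j ^ s j) * rename Sum.inr (g ^ k)) : MvPolynomial (σ ⊕ τ) ℂ)) =
        coeff mon (G0 f s) • mg g (Polynomial.taylor ((∑ j, s j : ℕ) : ℂ) b') := by
      funext k
      rw [map_smul, cof_mul, Pi.smul_apply, mg]
      change _ = _ • (Polynomial.eval (k : ℂ) (Polynomial.taylor ((∑ j, s j : ℕ) : ℂ) b') • g ^ k)
      rw [smul_comm, Polynomial.taylor_eval, Nat.cast_add, add_comm (k : ℂ)]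
      rfl
    rw [h1, map_smul, hψ2, smul_eq_mul, mul_comm, Polynomial.taylor_taylor,
      Polynomial.taylor_coeff, Polynomial.taylor_eval, add_comm β]
  rw [hfin]
  exact hwV

/-- **Forced multiplicities of a Thom-Sebastiani sum.** -/
theorem ts_dvd (hA : StA) (hB : StB) [DecidableEq σ] [DecidableEq τ] (f : ι → MvPolynomial σ ℂ)
    (hf : ∃ j, f j ≠ 0)
    (g : MvPolynomial τ ℂ) (hg : g ≠ 0) (b : Polynomial ℂ)
    (hb : IsBFunction (univ (fun j => rename Sum.inl (f j)) + rename Sum.inr (rename Sum.inr g) :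
      MvPolynomial (ι ⊕ (σ ⊕ τ)) ℂ) b) :
    ∃ b' : Polynomial ℂ, b = (Polynomial.X + 1) * b' ∧ ∀ (α β : ℂ) (m n : ℕ), 1 ≤ m → 1 ≤ n →
      FM f α m → FMB g β (n + if β = -1 then 1 else 0) →
        (Polynomial.X - Polynomial.C (α + β)) ^ (m + n - 1) ∣ b' := by
  obtain ⟨b', e, h⟩ := ts_jet hA hB f hf g hg b hb
  refine ⟨b', e, fun α β m n hm hn hα hβ => ?_⟩
  rw [dvd_iff_taylor]
  intro k hk
  obtain ⟨j, i, hj, hi, rfl⟩ : ∃ j i, j < n ∧ i < m ∧ k = i + j := by
    by_cases h : k < m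
    · exact ⟨0, k, by omega, h, rfl⟩
    · exact ⟨k + 1 - m, m - 1, by omega, by omega, by omega⟩
  have h1 := hα _ (h β n hβ j hj)
  have h2 := (dvd_iff_taylor α m _).1 h1 i hi
  rw [Polynomial.taylor_taylor, Polynomial.taylor_coeff] at h2
  have h3 := congrArg (fun L : Polynomial ℂ →ₗ[ℂ] Polynomial ℂ => (L b').eval (α + β))
    (Polynomial.hasseDeriv_comp (R := ℂ) i j)
  simp only [LinearMap.comp_apply, LinearMap.smul_apply] at h3
  rw [h2, Polynomial.eval_smul, nsmul_eq_mul] at h3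
  rw [Polynomial.taylor_coeff]
  have h4 : ((i + j).choose i : ℂ) ≠ 0 := by
    exact_mod_cast (Nat.choose_pos (by omega)).ne'
  exact (mul_eq_zero.1 h3.symm).resolve_left h4

end Pool.Agent.Y230.TH
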