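import Pool.Agent.Y230.PS.Defs

set_option autoImplicit false

/-! # The class of polynomials closed under the Thom-Sebastiani sums `∑ y_j f_j(x) + g(z)` -/

namespace Pool.Agent.Y230.TH

open MvPolynomial Pool.Agent.Y230.PS

/-- The family with the only member `∑_j y_j f_j(x) + g(z)`, with further variables `y_j`; the
variables `x` and `z` are disjoint. -/
@[reducible] noncomputable def tsum (A : FamQ) (τ : Type) [Fintype τ] (g : MvPolynomial τ ℚ) :
    FamQ :=
  ⟨(A.ι ⊕ A.σ) ⊕ τ, Fin 1, fun _ =>
    rename Sum.inl (∑ j, X (Sum.inl j) * rename Sum.inr (A.f j) : MvPolynomial (A.ι ⊕ A.σ) ℚ) +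
      rename Sum.inr g⟩

/-- Two classes of ideals, given by generators: `TS strict false A` for ideals and
`TS strict true A` for principal ideals (hypersurfaces). They are the smallest classes with the
following properties. -/
inductive TS (strict : Bool) : Bool → FamQ → Prop
  /-- the ideals in `Good` -/
  | good (A : FamQ) (h : Good strict A) : TS strict false A
  /-- the plane curves -/
  | curve (g : MvPolynomial (Fin 2) ℚ) (hg : g ≠ 0) :
      TS strict true ⟨Fin 2, Fin 1, fun _ => g⟩
  /-- a hypersurface is a principal ideal -/
  | hyp (A : FamQ) (h : TS strict true A) : TS strict false A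
  /-- the sum of two ideals in disjoint sets of variables -/
  | sum (A B : FamQ) (hA : TS strict false A) (hB : TS strict false B) :
      TS strict false (A.sum B)
  /-- the product of two ideals, or of two polynomials, in disjoint sets of variables -/
  | mul (c : Bool) (A B : FamQ) (hA : TS strict c A) (hB : TS strict c B) :
      TS strict c (A.mul B)
  /-- the polynomial `∑ y_j f_j(x)` -/
  | univ (A : FamQ) (hA : TS strict false A) : TS strict true A.univ
  /-- the Thom-Sebastiani sum `∑ y_j f_j(x) + g(z)` -/
  | ts (A : FamQ) (τ : Type) [Fintype τ] (g : MvPolynomial τ ℚ) (hA : TS strict false A)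
      (hg : TS strict true ⟨τ, Fin 1, fun _ => g⟩) : TS strict true (tsum A τ g)
  /-- variables which do not occur may be dropped -/
  | drop (σ κ : Type) [Fintype σ] [Fintype κ] (g : MvPolynomial σ ℚ)
      (h : TS strict true ⟨σ ⊕ κ, Fin 1, fun _ => rename Sum.inl g⟩) :
      TS strict true ⟨σ, Fin 1, fun _ => g⟩
  /-- the variables and the generators may be indexed differently -/
  | equiv (c : Bool) (A B : FamQ) (i : A.σ ≃ B.σ) (k : A.ι ≃ B.ι)
      (h : ∀ j, B.f (k j) = rename i (A.f j)) (hA : TS strict c A) : TS strict c B

end Pool.Agent.Y230.TH
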