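import Pool.Agent.Y230.TH.Stm
import Pool.Agent.W574.HS.Form

set_option autoImplicit false
set_option linter.unusedSectionVars false
set_option linter.unusedVariables false

/-! # The expansion of a functional equation of `∑ y_j f_j(x) + g(x)` -/

namespace Pool.Agent.Y230.TH

open MvPolynomial
open Pool.Agent.W574.SM Pool.Agent.W574.HS
open Pool.Agent.H628R4.TP (IsBFunction)

variable {ρ ι : Type} [Fintype ι] [DecidableEq ι]

/-- the substitution which keeps one `y_j` -/
noncomputable def keep (j : ι) : MvPolynomial (ι ⊕ ρ) ℂ →ₐ[ℂ] Polynomial (MvPolynomial ρ ℂ) :=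
  aeval (Sum.elim (fun i => if i = j then (Polynomial.X : Polynomial (MvPolynomial ρ ℂ)) else 0)
    (fun i => Polynomial.C (X i)))

theorem keep_inr (j : ι) (q : MvPolynomial ρ ℂ) :
    keep j (rename Sum.inr q : MvPolynomial (ι ⊕ ρ) ℂ) = Polynomial.C q := by
  induction q using MvPolynomial.induction_on with
  | C a =>
    rw [rename_C]
    unfold keep
    rw [aeval_C]
    rfl
  | add p q hp hq => rw [map_add, map_add, hp, hq, map_add]
  | mul_X p i hp =>
    rw [map_mul, map_mul, hp, rename_X, map_mul]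
    congr 1
    unfold keep
    rw [aeval_X]
    rfl

theorem keep_F (j : ι) (f : ι → MvPolynomial ρ ℂ) (g : MvPolynomial ρ ℂ) :
    keep j (univ f + rename Sum.inr g) =
      Polynomial.C (f j) * Polynomial.X + Polynomial.C g := by
  rw [map_add, keep_inr, univ, map_sum, Finset.sum_eq_single j]
  · rw [map_mul, keep_inr, mul_comm]
    congr 2
    unfold keep
    rw [aeval_X, Sum.elim_inl, if_pos rfl]
  · intro i _ hi
    rw [map_mul]
    have : keep j (X (Sum.inl i) : MvPolynomial (ι ⊕ ρ) ℂ) = 0 := by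
      unfold keep
      rw [aeval_X, Sum.elim_inl, if_neg hi]
    rw [this, zero_mul]
  · intro h
    exact absurd (Finset.mem_univ _) h

theorem F_ne (f : ι → MvPolynomial ρ ℂ) (g : MvPolynomial ρ ℂ) (hf : ∃ j, f j ≠ 0) :
    (univ f + rename Sum.inr g : MvPolynomial (ι ⊕ ρ) ℂ) ≠ 0 ∧
      ¬ (univ f + rename Sum.inr g : MvPolynomial (ι ⊕ ρ) ℂ) ∣ 1 := by
  obtain ⟨j, hj⟩ := hf
  have h1 : (keep j (univ f + rename Sum.inr g)).natDegree = 1 := by
    rw [keep_F]
    exact Polynomial.natDegree_linear hj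
  constructor
  · intro h
    rw [h, map_zero, Polynomial.natDegree_zero] at h1
    exact zero_ne_one h1
  · intro h
    have h2 : IsUnit (keep j (univ f + rename Sum.inr g)) := (isUnit_of_dvd_one h).map _
    rw [Polynomial.natDegree_eq_zero_of_isUnit h2] at h1
    exact zero_ne_one h1

theorem hat_F_pow (f : ι → MvPolynomial ρ ℂ) (g : MvPolynomial ρ ℂ) (N : ℕ) (α : ι →₀ ℕ) :
    hat ((univ f + rename Sum.inr g) ^ N) α =
      (N.descFactorial (∑ j, α j) : ℂ) • ((∏ j, f j ^ α j) * g ^ (N - ∑ j, α j)) := by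
  rw [add_pow, hat_sum]
  have h1 : ∀ m ∈ Finset.range (N + 1), hat (univ f ^ m * rename Sum.inr g ^ (N - m) *
      ((N.choose m : ℕ) : MvPolynomial (ι ⊕ ρ) ℂ)) α = if ∑ j, α j = m then
        (N.descFactorial m : ℂ) • ((∏ j, f j ^ α j) * g ^ (N - m)) else 0 := by
    intro m _
    have e : univ f ^ m * rename Sum.inr g ^ (N - m) *
        ((N.choose m : ℕ) : MvPolynomial (ι ⊕ ρ) ℂ) =
        C (N.choose m : ℂ) * (rename Sum.inr (g ^ (N - m)) * univ f ^ m) := by
      rw [map_pow, map_natCast]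
      ring
    rw [e, hat_C_mul, hat_r, hat_univ_pow]
    split_ifs with h
    · rw [mul_smul_comm, smul_smul, Nat.descFactorial_eq_factorial_mul_choose, mul_comm (g ^ _)]
      congr 1
      push_cast
      ring
    · rw [mul_zero, smul_zero]
  rw [Finset.sum_congr rfl h1]
  by_cases h : ∑ j, α j ≤ N
  · rw [Finset.sum_ite_eq, if_pos (Finset.mem_range.2 (by omega))]
  · rw [Finset.sum_ite_eq, if_neg (by rw [Finset.mem_range]; omega),
      Nat.descFactorial_eq_zero_iff_lt.2 (by omega), Nat.cast_zero, zero_smul]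

theorem desc_kd (s : ι →₀ ℕ) (c : ι → ℤ) (h : ∀ j, 0 ≤ (s j : ℤ) + c j) (k : ℕ) :
    ((∑ j, s j + k + 1).descFactorial (∑ j, sh s c j) : ℂ) =
      ((∑ j, s j + k + 1).factorial : ℂ) / (k.factorial : ℂ) * kd k (∑ j, c j) := by
  have hsum : ((∑ j, sh s c j : ℕ) : ℤ) = ∑ j, s j + ∑ j, c j := by
    push_cast
    rw [← Finset.sum_add_distrib]
    refine Finset.sum_congr rfl fun j _ => ?_
    rw [sh_apply, Int.toNat_of_nonneg (h j)]
  have hk : (k.factorial : ℂ) ≠ 0 := by exact_mod_cast Nat.factorial_ne_zero _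
  unfold kd
  by_cases h1 : (k : ℤ) + 1 < ∑ j, c j
  · rw [if_pos h1, mul_zero, Nat.descFactorial_eq_zero_iff_lt.2, Nat.cast_zero]
    have : ((∑ j, s j : ℕ) : ℤ) = ∑ j, (s j : ℤ) := by push_cast; rfl
    omega
  · rw [if_neg h1]
    have h2 : ∑ j, sh s c j ≤ ∑ j, s j + k + 1 := by
      have : ((∑ j, s j : ℕ) : ℤ) = ∑ j, (s j : ℤ) := by push_cast; rfl
      omega
    have h3 : (∑ j, s j + k + 1) - ∑ j, sh s c j = ((k : ℤ) + 1 - ∑ j, c j).toNat := by
      have : ((∑ j, s j : ℕ) : ℤ) = ∑ j, (s j : ℤ) := by push_cast; rfl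
      omega
    have h4 := Nat.factorial_mul_descFactorial h2
    rw [h3] at h4
    have h5 : ((((k : ℤ) + 1 - ∑ j, c j).toNat.factorial : ℕ) : ℂ) ≠ 0 := by
      exact_mod_cast Nat.factorial_ne_zero _
    rw [← h4]
    push_cast
    field_simp

theorem tB : StB := by
  intro ρ ι _ _ _ f g hf b hb
  classical
  obtain ⟨hF0, hF1⟩ := F_ne f g hf
  obtain ⟨P, hP⟩ := hb
  have hm1 : b.eval (-1) = 0 := by
    refine minus_one _ 1 hF0 hF1 b P fun s => ?_
    rw [one_mul]
    exact hP s
  obtain ⟨b', hb'⟩ : (Polynomial.X + 1 : Polynomial ℂ) ∣ b := by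
    have := Polynomial.dvd_iff_isRoot.2 hm1
    rwa [Polynomial.C_neg, sub_neg_eq_add, Polynomial.C_1] at this
  refine ⟨b', hb', ?_⟩
  choose E hE1 hE2 using fun m : ℕ => rep_weylS (σ := ρ) (ι := ι) (P m).1 (P m).2 _ rep_id
  choose κ hκ c q R hR using hE1
  refine ⟨Σ m : P.support, κ m, inferInstance, fun i => c i.1 i.2, fun i => q i.1 i.2,
    fun i => i.1, fun i => R i.1 i.2, fun s k => ?_⟩
  set N := ∑ j, s j + k with hN
  have hk0 : (k.factorial : ℂ) ≠ 0 := by exact_mod_cast Nat.factorial_ne_zero _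
  have h1 := congrArg (fun G => hat G s) (hP N)
  rw [hat_C_mul, Finsupp.sum, hat_sum, hat_F_pow] at h1
  have h2 : ∀ m ∈ P.support, hat (((N : ℂ) ^ m) • ((P m : Module.End ℂ (MvPolynomial (ι ⊕ ρ) ℂ))
      ((univ f + rename Sum.inr g) ^ (N + 1)))) s = ∑ i : κ m,
        (((N + 1).factorial : ℂ) / (k.factorial : ℂ)) •
        (((N : ℂ) ^ m * (evN s (q m i) * (fall (c m i) s : ℂ)) *
            kd k (∑ j, c m i j)) •
          (R m i : Module.End ℂ (MvPolynomial ρ ℂ))
            ((∏ j, f j ^ (sh s (c m i)) j) * g ^ ((k : ℤ) + 1 - ∑ j, c m i j).toNat)) := by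
    intro m _
    rw [hat_smul, hE2 m _ (hat ((univ f + rename Sum.inr g) ^ (N + 1))) rfl, hR, Finset.smul_sum]
    refine Finset.sum_congr rfl fun i _ => ?_
    by_cases hpos : ∀ j, 0 ≤ (s j : ℤ) + c m i j
    · rw [hat_F_pow, desc_kd s (c m i) hpos k, map_smul, smul_smul, smul_smul, smul_smul]
      by_cases h3 : (k : ℤ) + 1 < ∑ j, c m i j
      · have h4 : kd k (∑ j, c m i j) = 0 := by
          unfold kd
          rw [if_pos h3]
        rw [h4]
        simp
      · have hsum : ((∑ j, sh s (c m i) j : ℕ) : ℤ) = ∑ j, s j + ∑ j, c m i j := by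
          push_cast
          rw [← Finset.sum_add_distrib]
          refine Finset.sum_congr rfl fun j _ => ?_
          rw [sh_apply, Int.toNat_of_nonneg (hpos j)]
        have h5 : N + 1 - ∑ j, sh s (c m i) j = ((k : ℤ) + 1 - ∑ j, c m i j).toNat := by
          have : ((∑ j, s j : ℕ) : ℤ) = ∑ j, (s j : ℤ) := by push_cast; rfl
          omega
        rw [h5]
        congr 1
        ring
    · push Not at hpos
      obtain ⟨j, hj⟩ := hpos
      have h3 : fall (c m i) s = 0 := by
        refine Finset.prod_eq_zero (Finset.mem_univ j) ?_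
        rw [Nat.descFactorial_eq_zero_iff_lt]
        omega
      rw [h3]
      simp
  rw [Finset.sum_congr rfl h2] at h1
  have h3 : N - ∑ j, s j = k := by omega
  have h4 : (N.descFactorial (∑ j, s j) : ℂ) = (N.factorial : ℂ) / (k.factorial : ℂ) := by
    have := Nat.factorial_mul_descFactorial (show ∑ j, s j ≤ N by omega)
    rw [h3] at this
    rw [← this]
    push_cast
    field_simp
  have h5 : b.eval (N : ℂ) * ((N.factorial : ℂ) / (k.factorial : ℂ)) =
      (((N + 1).factorial : ℂ) / (k.factorial : ℂ)) * b'.eval (N : ℂ) := by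
    rw [hb', Polynomial.eval_mul, Polynomial.eval_add, Polynomial.eval_X, Polynomial.eval_one,
      Nat.factorial_succ]
    push_cast
    ring
  rw [h3, h4, smul_smul, h5, mul_smul] at h1
  have h6 : (((N + 1).factorial : ℂ) / (k.factorial : ℂ)) ≠ 0 :=
    div_ne_zero (by exact_mod_cast Nat.factorial_ne_zero _) hk0
  refine smul_right_injective (MvPolynomial ρ ℂ) h6 ?_
  beta_reduce
  rw [h1, Finset.smul_sum, Fintype.sum_sigma]
  rw [← Finset.sum_coe_sort P.support]

end Pool.Agent.Y230.TH
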