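import Pool.Agent.Y230.TH.Mlt

set_option autoImplicit false
set_option linter.unusedSectionVars false
set_option linter.unusedVariables false

/-! # The two instances -/

namespace Pool.Agent.Y230.TH

open Polynomial Pool.Agent.Y230.PT Pool.Agent.Y230.PS
open Pool.Agent.W574.SM Pool.Agent.W574.RO Pool.Agent.W574.CN Pool.Agent.W574.HS
open Pool.Agent.H628R4.TP (IsBFunction)

/-- the orders -/
noncomputable def wM (p : ℕ) (T : ℂ) (k : ℕ) : ℕ∞ := ((k + dp p T : ℕ) : ℕ∞)

/-- roots without multiplicities -/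
noncomputable def wR (p : ℕ) (T : ℂ) (k : ℕ) : ℕ∞ := if k = 0 then ((dp p T : ℕ) : ℕ∞) else ⊤

variable {p : ℕ} [Fact p.Prime]

theorem FK_of_le_M {A : FamQ} {T : ℂ} {b : ℕ} (hb : 1 ≤ b)
    (h : ((b + dp p T : ℕ) : ℕ∞) ≤ rG p (wM p) A T) :
    FK A ((rr p T : ℝ) : ℂ) (b + dl ((rr p T : ℝ) : ℂ)) := by
  by_contra hn
  have h1 : rG p (wM p) A T ≤ ((b - 1 + dp p T : ℕ) : ℕ∞) := iSup_le fun k => by
    have hk : (k : ℕ) < b := by
      by_contra hk
      exact hn (k.2.mono (by omega))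
    have h3 : (k : ℕ) + dp p T ≤ b - 1 + dp p T := by omega
    unfold wM
    exact_mod_cast h3
  have h2 : b + dp p T ≤ b - 1 + dp p T := by exact_mod_cast h.trans h1
  omega

theorem FK_of_le_R {A : FamQ} {T : ℂ} {b : ℕ} (hb : 1 ≤ b)
    (h : ((b + dp p T : ℕ) : ℕ∞) ≤ rG p (wR p) A T) :
    FK A ((rr p T : ℝ) : ℂ) (1 + dl ((rr p T : ℝ) : ℂ)) := by
  by_contra hn
  have h1 : rG p (wR p) A T ≤ ((dp p T : ℕ) : ℕ∞) := iSup_le fun k => by
    have hk : (k : ℕ) = 0 := by
      by_contra hk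
      exact hn (k.2.mono (by omega))
    unfold wR
    rw [if_pos hk]
  have h2 : b + dp p T ≤ dp p T := by exact_mod_cast h.trans h1
  omega

theorem dvd_dl (r : ℂ) (m : ℕ) (b : ℂ[X]) (h : (X - C r) ^ m ∣ b) :
    (X - C r) ^ (m + dl r) ∣ (X + 1) * b := by
  unfold dl
  split_ifs with hp
  · rw [pow_succ']
    refine mul_dvd_mul ?_ h
    rw [X_add_one, hp]
  · exact h.mul_left _

theorem FK_tsum (A : FamQ) (τ : Type) [Fintype τ] (g : MvPolynomial τ ℚ) (hA : ∃ j, A.f j ≠ 0)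
    (hg : g ≠ 0) (T1 T2 : ℂ) (h1 : 1 < ‖T1‖) (h2 : 1 < ‖T2‖) (m n : ℕ) (hm : 1 ≤ m) (hn : 1 ≤ n)
    (hA1 : FK A ((rr p T1 : ℝ) : ℂ) m)
    (hg1 : FK ⟨τ, Fin 1, fun _ => g⟩ ((rr p T2 : ℝ) : ℂ) (n + dl ((rr p T2 : ℝ) : ℂ))) :
    FK (tsum A τ g) ((rr p (T1 * T2) : ℝ) : ℂ)
      (m + n - 1 + dl ((rr p (T1 * T2) : ℝ) : ℂ)) := by
  intro b hb
  obtain ⟨b', e, h⟩ := FK_ts A τ g hA hg b hb
  rw [e]
  apply dvd_dl
  rw [rr_mul T1 T2 h1 h2, Complex.ofReal_add]
  exact h _ _ m n hm hn hA1 hg1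

theorem FK_tsum0 (A : FamQ) (τ : Type) [Fintype τ] (g : MvPolynomial τ ℚ) (hA : ∃ j, A.f j ≠ 0)
    (hg : g ≠ 0) (r : ℂ) : FK (tsum A τ g) r (0 + dl r) := by
  intro b hb
  obtain ⟨b', e, h⟩ := FK_ts A τ g hA hg b hb
  rw [e]
  apply dvd_dl
  rw [pow_zero]
  exact one_dvd _

theorem ZI_FF {ι : Type} [Fintype ι] [Nonempty ι] (f : ι → MvPolynomial (Fin 2) ℚ_[p]) (s : ℝ) (hs : 0 ≤ s) :
    ZI f s = PS.FF f s := by
  rw [ZI_eq f s hs]
  unfold PS.FF FZ
  congr 2
  refine MeasureTheory.lintegral_congr fun x => ?_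
  unfold sz
  rw [ofReal_norm_rpow _ hs]
  congr 1
  funext j
  unfold ev
  congr 1
  congr 1
  funext i
  fin_cases i <;> rfl

theorem rr_norm (T : ℂ) (hT : 1 < ‖T‖) (h : ((rr p T : ℝ) : ℂ) = -1) : ‖T‖ = p := by
  have hp : (1 : ℝ) < p := by exact_mod_cast (Fact.out : p.Prime).one_lt
  have hlp : Real.log p ≠ 0 := (Real.log_pos hp).ne'
  have h1 : rr p T = -1 := by exact_mod_cast h
  unfold rr at h1
  rw [div_eq_iff hlp] at h1
  have h2 : Real.log ‖T‖ = Real.log p := by linarith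
  have h3 := congrArg Real.exp h2
  rwa [Real.exp_log (by linarith), Real.exp_log (by linarith)] at h3

/-- the plane curves -/
theorem curve_M (hR : StR) (g : MvPolynomial (Fin 2) ℚ) (hg : g ≠ 0) :
    FR p (rG p (wM p) ⟨Fin 2, Fin 1, fun _ => g⟩)
      (PS.FF (FamQ.toP p ⟨Fin 2, Fin 1, fun _ => g⟩)) := by
  classical
  obtain ⟨φ⟩ := exists_emb p
  have hφ : φ.comp (algebraMap ℚ ℚ_[p]) = algebraMap ℚ ℂ := RingHom.ext_rat _ _
  set A : FamQ := ⟨Fin 2, Fin 1, fun _ => g⟩ with hA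
  have hAne : ∃ j, A.f j ≠ 0 := ⟨(0 : Fin 1), hg⟩
  have hgood : FR p (mM p A) (PS.FF (A.toP p)) := by
    obtain ⟨h1, h2⟩ := good_main (p := p) isMlt_M A (Good.plane 1 (fun _ => g) ⟨0, hg⟩)
    have h3 := h2 (fun _ => 1) fun _ => one_ne_zero
    rwa [scl_one] at h3
  intro T0 hT0
  obtain ⟨M, hM1, hM2⟩ := hgood T0 hT0
  by_cases hT1 : ‖T0‖ ≤ 1
  · refine ⟨M, ?_, hM2⟩
    unfold PS.tr at hM1 ⊢
    rw [if_pos hT1] at hM1 ⊢
    exact hM1
  · have hT : 1 < ‖T0‖ := not_le.1 hT1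
    unfold PS.tr at hM1 ⊢
    rw [if_neg hT1] at hM1 ⊢
    obtain ⟨a, ha⟩ := mM_nat (p := p) A T0 hAne
    have hFa : FK A ((rr p T0 : ℝ) : ℂ) a := le_mM.1 (le_of_eq ha.symm)
    by_cases hd : dl ((rr p T0 : ℝ) : ℂ) = dp p T0
    · refine ⟨M, hM1.trans ?_, hM2⟩
      rw [ha]
      by_cases ha0 : a ≤ dl ((rr p T0 : ℝ) : ℂ)
      · rcases Nat.eq_zero_or_pos a with h0 | h0
        · rw [h0]
          exact bot_le
        · have h1 : FK A ((rr p T0 : ℝ) : ℂ) (0 + dl ((rr p T0 : ℝ) : ℂ)) := by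
            refine hFa.mono ?_
            unfold dl
            split_ifs
            · omega
            · omega
          refine le_trans ?_ (le_rG (w := wM p) h1)
          unfold wM
          rw [← hd]
          exact_mod_cast (by omega : a ≤ 0 + dl ((rr p T0 : ℝ) : ℂ))
      · have h1 : FK A ((rr p T0 : ℝ) : ℂ) ((a - dl ((rr p T0 : ℝ) : ℂ)) +
            dl ((rr p T0 : ℝ) : ℂ)) := hFa.mono (by omega)
        refine le_trans ?_ (le_rG (w := wM p) h1)
        unfold wM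
        rw [← hd]
        exact_mod_cast (by omega : a ≤ a - dl ((rr p T0 : ℝ) : ℂ) + dl ((rr p T0 : ℝ) : ℂ))
    · have hdl : dl ((rr p T0 : ℝ) : ℂ) = 1 ∧ dp p T0 = 0 := by
        have h1 := dp_le (p := p) T0
        have h2 : dl ((rr p T0 : ℝ) : ℂ) ≤ 1 := by
          unfold dl
          split_ifs
          · exact le_rfl
          · exact Nat.zero_le _
        omega
      have hr : ((rr p T0 : ℝ) : ℂ) = -1 := by
        by_contra h
        have := hdl.1
        rw [dl_eq, if_neg h] at this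
        omega
      have hne : T0 ≠ (p : ℂ) := by
        intro h
        have := hdl.2
        rw [dp_eq, if_pos h] at this
        omega
      have hgK : MvPolynomial.map (algebraMap ℚ ℚ_[p]) g ≠ 0 := fun h0 => hg
        (MvPolynomial.map_injective _ (algebraMap ℚ ℚ_[p]).injective (by rw [map_zero]; exact h0))
      have hmp : (fun _ : Fin 1 => mp φ (MvPolynomial.map (algebraMap ℚ ℚ_[p]) g)) = A.toC := by
        funext j
        unfold mp
        rw [MvPolynomial.map_map, hφ]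
        rfl
      rcases hR p φ (MvPolynomial.map (algebraMap ℚ ℚ_[p]) g) hgK T0 (rr_norm T0 hT hr) hne
        with h | ⟨h, h2⟩
      · exact ⟨0, by rw [Nat.cast_zero]; exact bot_le, h.congr fun s hs => ZI_FF _ s hs⟩
      · refine ⟨1, ?_, h.congr fun s hs => ZI_FF _ s hs⟩
        have h3 : FK A ((rr p T0 : ℝ) : ℂ) (1 + dl ((rr p T0 : ℝ) : ℂ)) := by
          intro b hb
          rw [hdl.1, hr]
          exact h2 b (by rw [hmp]; exact hb)
        refine le_trans ?_ (le_rG (w := wM p) h3)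
        unfold wM
        rw [hdl.2]

theorem isMltT_M (hR : StR) : IsMltT p true (mM p) (rG p (wM p)) where
  base := isMlt_M
  curve g hg := curve_M hR g hg
  hyp := by
    classical
    intro A T hT
    refine iSup_le fun k => ?_
    unfold wM
    rw [le_mM]
    have h1 : FK A ((rr p T : ℝ) : ℂ) (k + dp p T) := k.2.mono (Nat.add_le_add_left (dp_le T) _)
    exact fun b hb => h1 b hb
  mul A B T hT hA hB := rG_mul (fun T k l => by
    unfold wM
    have := dp_le (p := p) T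
    exact_mod_cast (by omega : k + dp p T + (l + dp p T) ≤
      k + l + dl ((rr p T : ℝ) : ℂ) + dp p T)) A B T hT hA hB
  univ := by
    classical
    intro A T hT hA
    obtain ⟨a, ha⟩ := mM_nat (p := p) A T hA
    have h1 : FK A ((rr p T : ℝ) : ℂ) a := le_mM.1 (le_of_eq ha.symm)
    have h2 := le_rG (w := wM p) (FK_univ A hA _ a h1)
    refine le_trans (le_of_eq ?_) h2
    unfold wM
    rw [ha, dp_eq]
    split_ifs <;> simp
  ts := by
    classical
    intro A τ _ g hA hg T1 T2 h1 h2 a b ha hb hAa hgb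
    rw [← dp_eq] at hgb ⊢
    have h3 : FK A ((rr p T1 : ℝ) : ℂ) a := le_mM.1 hAa
    exact le_rG (w := wM p) (FK_tsum A τ g hA hg T1 T2 h1 h2 a b ha hb h3 (FK_of_le_M hb hgb))
  one := by
    intro A τ _ g hA hg
    refine le_trans (le_of_eq ?_) (le_rG (w := wM p) (FK_tsum0 A τ g hA hg _))
    unfold wM
    rw [dp_eq, if_pos rfl]
    rfl
  drop := by
    intro σ κ _ _ g T hT
    exact rG_le_of fun m hm => FK_drop g _ m hm
  equiv := by
    intro A B i k h T hT
    exact rG_le_of fun m hm => FK_equiv A B i k h _ m hm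

theorem FK_forced {A : FamQ} {r : ℂ} {m : ℕ} (hm : 1 ≤ m) (h : FK A r m) : Forced A.toC r := by
  intro b hb
  have h1 := (h.mono hm) b hb
  rwa [pow_one, dvd_iff_isRoot] at h1

theorem forced_FK {A : FamQ} {r : ℂ} (h : Forced A.toC r) : FK A r 1 := by
  intro b hb
  rw [pow_one, dvd_iff_isRoot]
  exact h b hb

theorem wM_le (T : ℂ) (k : ℕ) : wM p T k ≤ wR p T k := by
  unfold wM wR
  split_ifs with h
  · rw [h, zero_add]
  · exact le_top

theorem isMltT_R (hR : StR) : IsMltT p false (mR p) (rG p (wR p)) where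
  base := isMlt_R
  curve g hg := (curve_M hR g hg).mono fun T hT => iSup_mono fun k => wM_le T k
  hyp := by
    intro A T hT
    refine iSup_le fun k => ?_
    unfold wR
    split_ifs with hk
    · by_cases h : T = (p : ℂ)
      · rw [dp_eq, if_pos h]
        have h1 : Forced A.toC ((rr p T : ℝ) : ℂ) := by
          refine FK_forced (m := k + dl ((rr p T : ℝ) : ℂ)) ?_ k.2
          have := dp_le (p := p) T
          rw [dp_eq, if_pos h] at this
          omega
        rw [mR_top h1]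
        exact le_top
      · rw [dp_eq, if_neg h, Nat.cast_zero]
        exact bot_le
    · rw [mR_top (FK_forced (m := k + dl ((rr p T : ℝ) : ℂ)) (by omega) k.2)]
  mul A B T hT hA hB := rG_mul (fun T k l => by
    unfold wR
    have hd := dp_le (p := p) T
    by_cases hk : k = 0
    · by_cases hl : l = 0
      · rw [if_pos hk, if_pos hl]
        split_ifs with h
        · have : dp p T = 0 := by omega
          rw [this]
          simp
        · exact le_top
      · rw [if_neg (by omega : ¬ k + l + dl ((rr p T : ℝ) : ℂ) = 0)]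
        exact le_top
    · rw [if_neg (by omega : ¬ k + l + dl ((rr p T : ℝ) : ℂ) = 0)]
      exact le_top) A B T hT hA hB
  univ := by
    intro A T hT hA
    by_cases h : Forced A.toC ((rr p T : ℝ) : ℂ)
    · have h2 := le_rG (w := wR p) (FK_univ A hA _ 1 (forced_FK h))
      refine le_trans ?_ h2
      unfold wR
      rw [if_neg one_ne_zero]
      exact le_top
    · have h2 := le_rG (w := wR p) (k := 0) (FK_univ A hA ((rr p T : ℝ) : ℂ) 0 (FK_zero _ _))
      refine le_trans (le_of_eq ?_) h2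
      unfold wR
      rw [mR_zero h, if_pos rfl, dp_eq, zero_add]
      split_ifs <;> simp
  ts := by
    intro A τ _ g hA hg T1 T2 h1 h2 a b ha hb hAa hgb
    rw [← dp_eq] at hgb
    have h3 := forced_FK (mR_forced ha hAa)
    have h4 := FK_tsum A τ g hA hg T1 T2 h1 h2 1 1 le_rfl le_rfl h3 (FK_of_le_R hb hgb)
    refine le_trans ?_ (le_rG (w := wR p) (k := 1) h4)
    unfold wR
    rw [if_neg one_ne_zero]
    exact le_top
  one := by
    intro A τ _ g hA hg
    refine le_trans (le_of_eq ?_) (le_rG (w := wR p) (FK_tsum0 A τ g hA hg _))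
    unfold wR
    rw [if_pos rfl, dp_eq, if_pos rfl]
    rfl
  drop := by
    intro σ κ _ _ g T hT
    exact rG_le_of fun m hm => FK_drop g _ m hm
  equiv := by
    intro A B i k h T hT
    exact rG_le_of fun m hm => FK_equiv A B i k h _ m hm

end Pool.Agent.Y230.TH
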