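import Pool.Agent.Y230.PS.ProdM
import Pool.Agent.Y230.PS.Fam2
import Pool.Agent.W574.RO.Tensor

set_option autoImplicit false

/-! # Statements for the Thom-Sebastiani sums `∑ y_j f_j(x) + g(z)` -/

namespace Pool.Agent.Y230.TH

open MvPolynomial MeasureTheory
open Pool.Agent.W574.SM Pool.Agent.W574.HS Pool.Agent.W574.RO
open Pool.Agent.W427.SMC Pool.Agent.Y230.PT Pool.Agent.Y230.PS
open Pool.Agent.H628R4.TP (IsBFunction)

attribute [local instance] msZ bsZ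

/-- `k! / (k + e)!` -/
noncomputable def kf (k e : ℕ) : ℂ := (k.factorial : ℂ) / ((k + e).factorial : ℂ)

/-- the span of the functions `k ↦ k ^ j k! / (k + e)! Q g ^ (k + e)`, `e ≥ 1` -/
noncomputable def W {τ : Type} (g : MvPolynomial τ ℂ) : Submodule ℂ (ℕ → MvPolynomial τ ℂ) :=
  Submodule.span ℂ {v | ∃ (j e : ℕ) (Q : weyl τ), 1 ≤ e ∧ v = fun k : ℕ =>
    ((k : ℂ) ^ j * kf k e) • (Q : Module.End ℂ (MvPolynomial τ ℂ)) (g ^ (k + e))}

/-- Job A: a microlocal functional equation gives a functional equation (Saito). -/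
def StA : Prop := ∀ {τ : Type} (g : MvPolynomial τ ℂ), g ≠ 0 → ∀ q : Polynomial ℂ,
  (fun k : ℕ => q.eval (k : ℂ) • g ^ k) ∈ W g → IsBFunction g ((Polynomial.X + 1) * q)

/-- `k! / (k + 1 - d)!`, and `0` if `k + 1 < d` -/
noncomputable def kd (k : ℕ) (d : ℤ) : ℂ :=
  if (k : ℤ) + 1 < d then 0 else (k.factorial : ℂ) / ((((k : ℤ) + 1 - d).toNat).factorial : ℂ)

/-- Job B: the expansion of a functional equation of `∑ y_j f_j(x) + g(x)` in powers of `y`. -/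
def StB : Prop := ∀ {ρ ι : Type} [Fintype ι] [DecidableEq ι] [DecidableEq ρ]
  (f : ι → MvPolynomial ρ ℂ) (g : MvPolynomial ρ ℂ), (∃ j, f j ≠ 0) → ∀ b : Polynomial ℂ,
  IsBFunction (univ f + rename Sum.inr g) b →
  ∃ b' : Polynomial ℂ, b = (Polynomial.X + 1) * b' ∧
    ∃ (κ : Type) (_ : Fintype κ) (c : κ → ι → ℤ) (q : κ → MvPolynomial ι ℂ) (m : κ → ℕ)
      (R : κ → weyl ρ), ∀ (s : ι →₀ ℕ) (k : ℕ),
      b'.eval ((∑ j, s j + k : ℕ) : ℂ) • ((∏ j, f j ^ s j) * g ^ k) =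
        ∑ i, (((∑ j, s j + k : ℕ) : ℂ) ^ m i * (evN s (q i) * (fall (c i) s : ℂ)) *
            kd k (∑ j, c i j)) •
          (R i : Module.End ℂ (MvPolynomial ρ ℂ))
            ((∏ j, f j ^ (sh s (c i)) j) * g ^ ((k : ℤ) + 1 - ∑ j, c i j).toNat)

/-- Job Z: the volumes of the sets `|∑ y_j f_j(x) + g(z)| ≤ p ^ (-e)`. -/
def StZ : Prop := ∀ (p : ℕ) [Fact p.Prime] {σ τ ι : Type} [Fintype σ] [Fintype τ] [Fintype ι]
  [DecidableEq ι] [Nonempty ι] (f : ι → MvPolynomial σ ℚ_[p]) (g : MvPolynomial τ ℚ_[p]),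
  (∀ x, Val p (sz f x)) → (∀ z, Val p (sz (fun _ : Fin 1 => g) z)) → ∀ e : ℕ,
  (p : ℝ) ^ (e + 1) * Vo (Measure.pi fun _ : (ι ⊕ σ) ⊕ τ => mu p)
      (sz fun _ : Fin 1 => rename Sum.inl (univK f) + rename Sum.inr g) p (e + 1) -
    (p : ℝ) ^ e * Vo (Measure.pi fun _ : (ι ⊕ σ) ⊕ τ => mu p)
      (sz fun _ : Fin 1 => rename Sum.inl (univK f) + rename Sum.inr g) p e =
  Vo (Measure.pi fun _ : σ => mu p) (sz f) p (e + 1) *
    ((p : ℝ) ^ (e + 1) * Vo (Measure.pi fun _ : τ => mu p) (sz fun _ : Fin 1 => g) p (e + 1) -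
      (p : ℝ) ^ e * Vo (Measure.pi fun _ : τ => mu p) (sz fun _ : Fin 1 => g) p e)

end Pool.Agent.Y230.TH
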