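import Pool.Agent.Y230.TH.Seq
import Pool.Agent.Y230.TH.Stm

set_option autoImplicit false
set_option linter.unusedSectionVars false
set_option linter.unusedVariables false

/-! # The zeta functions of the Thom-Sebastiani sums -/

namespace Pool.Agent.Y230.TH

open Pool.Agent.Y230.PS
open MeasureTheory MvPolynomial Pool.Agent.Y230.PT
open Pool.Agent.W427.SMC (mu)

attribute [local instance] Pool.Agent.W427.SMC.msZ Pool.Agent.W427.SMC.bsZ

variable {p : ℕ} [Fact p.Prime]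

variable {σ τ ι : Type} [Fintype σ] [Fintype τ] [Fintype ι]

theorem sz_scale (f : ι → MvPolynomial σ ℚ_[p]) (K : ℕ) (x : σ → ℤ_[p]) :
    sz (fun j => C ((p : ℚ_[p]) ^ K) * f j) x = ((p : ℝ)⁻¹) ^ K * sz f x := by
  unfold sz
  have h : (fun j => eval (fun i => inc p (x i)) (C ((p : ℚ_[p]) ^ K) * f j)) =
      ((p : ℚ_[p]) ^ K) • fun j => eval (fun i => inc p (x i)) (f j) := by
    funext j
    rw [map_mul, eval_C]
    rfl
  rw [h, norm_smul, norm_pow, Padic.norm_p]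

theorem FR_scaleF {m : ℂ → ℕ∞} (f : ι → MvPolynomial σ ℚ_[p]) (K : ℕ) :
    FR p m (FF fun j => C ((p : ℚ_[p]) ^ K) * f j) ↔ FR p m (FF f) := by
  unfold FF
  rw [← FR_scale (p := p) (Measure.pi fun _ : σ => mu p) (sz f) (sz_nonneg f) K]
  have : sz (fun j => C ((p : ℚ_[p]) ^ K) * f j) = fun x => ((p : ℝ)⁻¹) ^ K * sz f x :=
    funext fun x => sz_scale f K x
  rw [this]

theorem FR_ts (hZ : StZ) [DecidableEq ι] [Nonempty ι] (f : ι → MvPolynomial σ ℚ_[p])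
    (g : MvPolynomial τ ℚ_[p]) (m1 m2 m3 : ℂ → ℕ∞)
    (H : ∀ T1 T2 : ℂ, 1 < ‖T1‖ → 1 < ‖T2‖ → ∀ a b : ℕ, 1 ≤ a → 1 ≤ b → (a : ℕ∞) ≤ m1 T1 →
      ((b + (if T2 = (p : ℂ) then 1 else 0) : ℕ) : ℕ∞) ≤ m2 T2 →
      ((a + b - 1 + (if T1 * T2 = (p : ℂ) then 1 else 0) : ℕ) : ℕ∞) ≤ m3 (T1 * T2))
    (H1 : 1 ≤ m3 (p : ℂ)) (h1 : FR p m1 (FF f)) (h2 : FR p m2 (FF fun _ : Fin 1 => g)) :
    FR p m3 (FF fun _ : Fin 1 => (rename Sum.inl (univK f) + rename Sum.inr g :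
      MvPolynomial ((ι ⊕ σ) ⊕ τ) ℚ_[p])) := by
  classical
  have hp0 : (p : ℂ) ≠ 0 := by exact_mod_cast (Fact.out : p.Prime).ne_zero
  obtain ⟨K1, hK1⟩ := sz_int (p := p) f
  obtain ⟨K2, hK2⟩ := sz_int (p := p) (fun _ : Fin 1 => g)
  obtain ⟨K3, hK3⟩ := sz_int (p := p) (fun _ : Fin 1 =>
    (rename Sum.inl (univK f) + rename Sum.inr g : MvPolynomial ((ι ⊕ σ) ⊕ τ) ℚ_[p]))
  set K := max K1 (max K2 K3) with hK
  set fK : ι → MvPolynomial σ ℚ_[p] := fun j => C ((p : ℚ_[p]) ^ K) * f j with hfK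
  set gK : MvPolynomial τ ℚ_[p] := C ((p : ℚ_[p]) ^ K) * g with hgK
  have hF : (fun _ : Fin 1 => C ((p : ℚ_[p]) ^ K) * (rename Sum.inl (univK f) + rename Sum.inr g :
      MvPolynomial ((ι ⊕ σ) ⊕ τ) ℚ_[p])) =
      fun _ : Fin 1 => rename Sum.inl (univK fK) + rename Sum.inr gK := by
    funext _
    unfold univK
    rw [hgK, hfK, mul_add, map_mul, rename_C, map_sum, map_sum, Finset.mul_sum]
    congr 1
    refine Finset.sum_congr rfl fun j _ => ?_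
    simp only [map_mul, rename_C]
    ring
  have hv1 : ∀ x, Val p (sz fK x) := fun x => by
    rw [hfK, sz_scale]
    exact hK1 K (le_max_left _ _) x
  have hv2 : ∀ x, Val p (sz (fun _ : Fin 1 => gK) x) := fun x => by
    have := sz_scale (fun _ : Fin 1 => g) K x
    rw [hgK, this]
    exact hK2 K ((le_max_left _ _).trans (le_max_right _ _)) x
  have hv3 : ∀ x, Val p (sz (fun _ : Fin 1 => rename Sum.inl (univK fK) + rename Sum.inr gK) x) :=
    fun x => by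
    rw [← hF]
    have := sz_scale (fun _ : Fin 1 => (rename Sum.inl (univK f) + rename Sum.inr g :
      MvPolynomial ((ι ⊕ σ) ⊕ τ) ℚ_[p])) K x
    rw [this]
    exact hK3 K ((le_max_right _ _).trans (le_max_right _ _)) x
  rw [← FR_scaleF _ K, hF]
  have g1 : FR p m1 (FF fK) := (FR_scaleF f K).2 h1
  have g2 : FR p m2 (FF fun _ : Fin 1 => gK) := (FR_scaleF (fun _ : Fin 1 => g) K).2 h2
  refine FR_of_Vc _ _ (sz_meas _) hv3 ?_
  refine EP_ts m1 m2 m3 H H1 (Vc (Measure.pi fun _ : σ => mu p) (sz fK) p)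
    (Vc (Measure.pi fun _ : τ => mu p) (sz fun _ : Fin 1 => gK) p) _
    (Vc_mem _ _ (sz_meas _) hv1 g1) (Vc_mem _ _ (sz_meas _) hv2 g2) fun e => ?_
  have h3 := hZ p fK gK hv1 hv2 e
  have h4 := congrArg (fun x : ℝ => (x : ℂ)) h3
  push_cast at h4
  have h5 : (p : ℂ) ^ e ≠ 0 := pow_ne_zero _ hp0
  refine mul_left_cancel₀ h5 ?_
  unfold Vc
  linear_combination h4

end Pool.Agent.Y230.TH
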