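import Pool.Agent.Y230.TH.Defs
import Pool.Agent.Y230.TH.Zeta
import Pool.Agent.Y230.PS.Mult
import Pool.Agent.Y287.TH.Z

set_option autoImplicit false
set_option linter.unusedSectionVars false
set_option linter.unusedVariables false

/-! # The induction -/

namespace Pool.Agent.Y230.TH

open MeasureTheory MvPolynomial Pool.Agent.W427.SMC Pool.Agent.Y230.PT Pool.Agent.Y230.PS
open scoped ENNReal
open Pool.Agent.Y230.RE Pool.Agent.W574.SM Pool.Agent.W574.RO Pool.Agent.W574.CN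

attribute [local instance] msZ bsZ

/-- compatible multiplicities -/
structure IsMltT (p : ℕ) [Fact p.Prime] (strict : Bool) (mlt mref : FamQ → ℂ → ℕ∞) : Prop where
  base : IsMlt p strict mlt
  curve : ∀ g : MvPolynomial (Fin 2) ℚ, g ≠ 0 →
    FR p (mref ⟨Fin 2, Fin 1, fun _ => g⟩) (FF (FamQ.toP p ⟨Fin 2, Fin 1, fun _ => g⟩))
  hyp : ∀ (A : FamQ) (T : ℂ), 1 < ‖T‖ → mref A T ≤ mlt A T
  mul : ∀ (A B : FamQ) (T : ℂ), 1 < ‖T‖ → (∃ j, A.f j ≠ 0) → (∃ j, B.f j ≠ 0) →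
    mref A T + mref B T ≤ mref (A.mul B) T
  univ : ∀ (A : FamQ) (T : ℂ), 1 < ‖T‖ → (∃ j, A.f j ≠ 0) →
    mlt A T + (if T = (p : ℂ) then 1 else 0) ≤ mref A.univ T
  ts : ∀ (A : FamQ) (τ : Type) [Fintype τ] (g : MvPolynomial τ ℚ), (∃ j, A.f j ≠ 0) → g ≠ 0 →
    ∀ T1 T2 : ℂ, 1 < ‖T1‖ → 1 < ‖T2‖ → ∀ a b : ℕ, 1 ≤ a → 1 ≤ b → (a : ℕ∞) ≤ mlt A T1 →
      ((b + (if T2 = (p : ℂ) then 1 else 0) : ℕ) : ℕ∞) ≤ mref ⟨τ, Fin 1, fun _ => g⟩ T2 →
      ((a + b - 1 + (if T1 * T2 = (p : ℂ) then 1 else 0) : ℕ) : ℕ∞) ≤ mref (tsum A τ g) (T1 * T2)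
  one : ∀ (A : FamQ) (τ : Type) [Fintype τ] (g : MvPolynomial τ ℚ), (∃ j, A.f j ≠ 0) → g ≠ 0 →
    1 ≤ mref (tsum A τ g) (p : ℂ)
  drop : ∀ (σ κ : Type) [Fintype σ] [Fintype κ] (g : MvPolynomial σ ℚ) (T : ℂ), 1 < ‖T‖ →
    mref ⟨σ ⊕ κ, Fin 1, fun _ => rename Sum.inl g⟩ T ≤ mref ⟨σ, Fin 1, fun _ => g⟩ T
  equiv : ∀ (A B : FamQ) (i : A.σ ≃ B.σ) (k : A.ι ≃ B.ι) (_ : ∀ j, B.f (k j) = rename i (A.f j))
    (T : ℂ), 1 < ‖T‖ → mref A T ≤ mref B T

variable {p : ℕ} [Fact p.Prime]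

theorem toP_ts (A : FamQ) (τ : Type) [Fintype τ] (g : MvPolynomial τ ℚ) :
    (tsum A τ g).toP p = fun _ : Fin 1 => rename Sum.inl (univK (A.toP p)) +
      rename Sum.inr (map (algebraMap ℚ ℚ_[p]) g) := by
  funext j
  change map (algebraMap ℚ ℚ_[p]) (rename Sum.inl
    (∑ j, X (Sum.inl j) * rename Sum.inr (A.f j) : MvPolynomial (A.ι ⊕ A.σ) ℚ) +
      rename Sum.inr g) = _
  rw [map_add, map_rename, map_rename]
  congr 2
  exact congrFun (toP_univ (p := p) A) 0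

/-- setting `y = 0` -/
theorem ts_ne (A : FamQ) (τ : Type) [Fintype τ] (g : MvPolynomial τ ℚ) (hg : g ≠ 0) :
    ∃ j, (tsum A τ g).f j ≠ 0 := by
  refine ⟨(0 : Fin 1), fun h0 => hg ?_⟩
  have h1 : (rename Sum.inl (∑ j, X (Sum.inl j) * rename Sum.inr (A.f j) :
    MvPolynomial (A.ι ⊕ A.σ) ℚ) + rename Sum.inr g : MvPolynomial ((A.ι ⊕ A.σ) ⊕ τ) ℚ) = 0 := h0
  set ε : (A.ι ⊕ A.σ) ⊕ τ → MvPolynomial τ ℚ :=
    Sum.elim (Sum.elim (fun _ : A.ι => 0) (fun _ : A.σ => 0)) X with hε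
  have h2 := congrArg (aeval ε : MvPolynomial ((A.ι ⊕ A.σ) ⊕ τ) ℚ → MvPolynomial τ ℚ) h1
  rw [map_add, aeval_rename, aeval_rename, map_zero] at h2
  have e1 : ε ∘ Sum.inr = X := rfl
  rw [e1, aeval_X_left_apply, map_sum] at h2
  rw [Finset.sum_eq_zero, zero_add] at h2
  · exact h2
  · intro j _
    rw [map_mul, aeval_X]
    simp [hε]

theorem FF_drop {σ κ : Type} [Fintype σ] [Fintype κ] (g : MvPolynomial σ ℚ_[p]) (s : ℝ) :
    PS.FF (fun _ : Fin 1 => (rename Sum.inl g : MvPolynomial (σ ⊕ κ) ℚ_[p])) s =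
      PS.FF (fun _ : Fin 1 => g) s := by
  have h1 := FF_mulK (fun _ : Fin 1 => g) (fun _ : Fin 1 => (1 : MvPolynomial κ ℚ_[p])) s
  have h2 : PS.FF (fun _ : Fin 1 => (1 : MvPolynomial κ ℚ_[p])) s = 1 := by
    unfold PS.FF FZ
    have : ∀ x : κ → ℤ_[p], sz (fun _ : Fin 1 => (1 : MvPolynomial κ ℚ_[p])) x = 1 := by
      intro x
      unfold sz
      simp
    simp only [this, Real.one_rpow, ENNReal.ofReal_one]
    simp
  rw [h2, mul_one] at h1
  rw [← h1]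
  have e := FF_equiv (Equiv.refl (σ ⊕ κ)) (Equiv.prodUnique (Fin 1) (Fin 1))
    (mulK (fun _ : Fin 1 => g) (fun _ : Fin 1 => (1 : MvPolynomial κ ℚ_[p])))
    (fun _ : Fin 1 => (rename Sum.inl g : MvPolynomial (σ ⊕ κ) ℚ_[p])) (fun j => by
      unfold mulK
      simp) s
  exact e

/-- **The zeta functions of the class.** -/
theorem ts_main {strict : Bool} {mlt mref : FamQ → ℂ → ℕ∞} (hM : IsMltT p strict mlt mref)
    (c : Bool) (A : FamQ) (h : TS strict c A) : (∃ j, A.f j ≠ 0) ∧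
      FR p (if c = true then mref A else mlt A) (FF (A.toP p)) := by
  classical
  induction h with
  | good A h =>
    obtain ⟨h1, h2⟩ := good_main hM.base A h
    refine ⟨h1, ?_⟩
    have h3 := h2 (fun _ => 1) fun _ => one_ne_zero
    rw [scl_one] at h3
    simpa using h3
  | curve g hg => exact ⟨⟨(0 : Fin 1), hg⟩, by simpa using hM.curve g hg⟩
  | hyp A h ih =>
    refine ⟨ih.1, ?_⟩
    have h1 := ih.2
    simp only [if_true] at h1
    simpa using h1.mono (hM.hyp A)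
  | sum A B hA hB ihA ihB =>
    refine ⟨sum_ne A B ihA.1, ?_⟩
    rw [toP_sum]
    have h1 := ihA.2
    have h2 := ihB.2
    simp only [Bool.false_eq_true, if_false] at h1 h2 ⊢
    exact FR_sumK _ _ _ _ _ (hM.base.sum A B) h1 h2
  | mul c A B hA hB ihA ihB =>
    refine ⟨mul_ne A B ihA.1 ihB.1, ?_⟩
    rw [toP_mul]
    have h1 := ihA.2
    have h2 := ihB.2
    cases c
    · simp only [Bool.false_eq_true, if_false] at h1 h2 ⊢
      refine (FR.mul h1 h2 (fun T hT => hM.base.mul A B T hT ihA.1 ihB.1)).congr fun s hs => ?_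
      rw [FF_mulK]
    · simp only [if_true] at h1 h2 ⊢
      refine (FR.mul h1 h2 (fun T hT => hM.mul A B T hT ihA.1 ihB.1)).congr fun s hs => ?_
      rw [FF_mulK]
  | univ A hA ihA =>
    refine ⟨univ_ne A ihA.1, ?_⟩
    rw [toP_univ]
    have hι : Nonempty A.ι := ⟨ihA.1.choose⟩
    have h1 := ihA.2
    simp only [Bool.false_eq_true, if_false, if_true] at h1 ⊢
    exact FR_univK hι _ _ _ (fun T hT => hM.univ A T hT ihA.1) h1
  | ts A τ g hA hg ihA ihg =>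
    have hg0 : g ≠ 0 := by
      obtain ⟨j, hj⟩ := ihg.1
      exact hj
    refine ⟨ts_ne A τ g hg0, ?_⟩
    rw [toP_ts]
    have hι : Nonempty A.ι := ⟨ihA.1.choose⟩
    have h1 := ihA.2
    have h2 := ihg.2
    simp only [Bool.false_eq_true, if_false, if_true] at h1 h2 ⊢
    exact FR_ts Pool.Agent.Y287.TH.tZ _ _ _ _ _ (hM.ts A τ g ihA.1 hg0)
      (hM.one A τ g ihA.1 hg0) h1 h2
  | drop σ κ g h ih =>
    refine ⟨⟨(0 : Fin 1), fun h0 => ?_⟩, ?_⟩
    · obtain ⟨j, hj⟩ := ih.1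
      apply hj
      have h1 : g = 0 := h0
      change rename Sum.inl g = 0
      rw [h1, map_zero]
    · have h1 := ih.2
      simp only [if_true] at h1 ⊢
      refine (h1.mono (hM.drop σ κ g)).congr fun s hs => ?_
      have h2 := FF_drop (κ := κ) (map (algebraMap ℚ ℚ_[p]) g) s
      refine Eq.trans ?_ h2
      congr 1
      funext j
      exact map_rename _ _ _
  | equiv c A B i k h hA ihA =>
    refine ⟨equiv_ne A B i k h ihA.1, ?_⟩
    have h3 : ∀ s : ℝ, FF (A.toP p) s = FF (B.toP p) s := fun s => by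
      rw [FF_equiv i k (A.toP p) (B.toP p) (fun j => ?_) s]
      change map (algebraMap ℚ ℚ_[p]) (B.f (k j)) = _
      rw [h, map_rename]
      rfl
    have h1 := ihA.2
    cases c
    · simp only [Bool.false_eq_true, if_false] at h1 ⊢
      exact (h1.mono fun T hT => hM.base.equiv A B i k h T hT).congr fun s hs => h3 s
    · simp only [if_true] at h1 ⊢
      exact (h1.mono fun T hT => hM.equiv A B i k h T hT).congr fun s hs => h3 s

end Pool.Agent.Y230.TH
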