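import Pool.Agent.Y230.PT.Global

set_option autoImplicit false

/-! # Plane curves at the points `T0` with `|T0| = p`, `T0 ≠ p` -/

namespace Pool.Agent.Y230.TH

open Pool.Agent.Y230.PT Pool.Agent.Y230.RE Pool.Agent.Y230.PL Polynomial
open Pool.Agent.W574.SM (IsFunctionalEq)

/-- Job R: for a plane curve the zeta function has no pole at `T0`, or it has a simple pole and `-1`
is a double root of the Bernstein-Sato polynomial. -/
def StR : Prop := ∀ (p : ℕ) [Fact p.Prime] (φ : ℚ_[p] →+* ℂ) (g : A ℚ_[p]), g ≠ 0 →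
  ∀ T0 : ℂ, ‖T0‖ = p → T0 ≠ p →
  Reg p T0 0 (ZI fun _ : Fin 1 => g) ∨ (Reg p T0 1 (ZI fun _ : Fin 1 => g) ∧
    ∀ b : ℂ[X], IsFunctionalEq (fun _ : Fin 1 => mp φ g) b → (X - C (-1)) ^ 2 ∣ b)

end Pool.Agent.Y230.TH
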