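import Pool.Agent.Y230.TH.Main
import Pool.Agent.Y230.TH.Jet
import Pool.Agent.Y230.TH.Exp
import Pool.Agent.Y230.TH.Stm2
import Pool.Agent.Y21.TH.JobA

set_option autoImplicit false
set_option linter.unusedSectionVars false
set_option linter.unusedVariables false

/-! # The multiplicities -/

namespace Pool.Agent.Y230.TH

open Polynomial Pool.Agent.Y230.PT Pool.Agent.Y230.PS
open Pool.Agent.W574.SM Pool.Agent.W574.RO Pool.Agent.W574.CN Pool.Agent.W574.HS
open Pool.Agent.H628R4.TP (IsBFunction)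

/-- `r` is a root of multiplicity at least `m` of all functional equations -/
def FK (A : FamQ) (r : ℂ) (m : ℕ) : Prop := ∀ b : ℂ[X], IsFunctionalEq A.toC b → (X - C r) ^ m ∣ b

/-- the correction at `-1` -/
noncomputable def dl (r : ℂ) : ℕ := open Classical in if r = -1 then 1 else 0

/-- the correction at `p` -/
noncomputable def dp (p : ℕ) (T : ℂ) : ℕ := open Classical in if T = (p : ℂ) then 1 else 0

theorem dp_eq (p : ℕ) (T : ℂ) : dp p T = if T = (p : ℂ) then 1 else 0 := by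
  unfold dp
  split_ifs <;> rfl

theorem dl_eq (r : ℂ) : dl r = if r = -1 then 1 else 0 := by
  unfold dl
  split_ifs <;> rfl

theorem FK.mono {A : FamQ} {r : ℂ} {m n : ℕ} (h : FK A r m) (hn : n ≤ m) : FK A r n :=
  fun b hb => (pow_dvd_pow _ hn).trans (h b hb)

theorem FK_zero (A : FamQ) (r : ℂ) : FK A r 0 := fun b hb => by
  rw [pow_zero]
  exact one_dvd _

/-- the value at `T` -/
noncomputable def rG (p : ℕ) (w : ℂ → ℕ → ℕ∞) (A : FamQ) (T : ℂ) : ℕ∞ :=
  ⨆ k : {k : ℕ // FK A ((rr p T : ℝ) : ℂ) (k + dl ((rr p T : ℝ) : ℂ))}, w T k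

variable {p : ℕ} [Fact p.Prime]

theorem dp_le (T : ℂ) : dp p T ≤ dl ((rr p T : ℝ) : ℂ) := by
  unfold dp dl
  split_ifs with h1 h2
  · exact le_rfl
  · exact absurd (by rw [h1, rr_self]; push_cast; rfl) h2
  · exact Nat.zero_le _
  · exact le_rfl

theorem rG_le_of {w : ℂ → ℕ → ℕ∞} {A B : FamQ} {T : ℂ}
    (h : ∀ m, FK A ((rr p T : ℝ) : ℂ) m → FK B ((rr p T : ℝ) : ℂ) m) :
    rG p w A T ≤ rG p w B T :=
  iSup_le fun k => le_iSup (fun k : {k : ℕ // FK B ((rr p T : ℝ) : ℂ)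
    (k + dl ((rr p T : ℝ) : ℂ))} => w T k) ⟨k.1, h _ k.2⟩

theorem le_rG {w : ℂ → ℕ → ℕ∞} {A : FamQ} {T : ℂ} {k : ℕ}
    (h : FK A ((rr p T : ℝ) : ℂ) (k + dl ((rr p T : ℝ) : ℂ))) : w T k ≤ rG p w A T :=
  le_iSup (fun k : {k : ℕ // FK A ((rr p T : ℝ) : ℂ) (k + dl ((rr p T : ℝ) : ℂ))} => w T k)
    ⟨k, h⟩

theorem FK_mul (A B : FamQ) (T : ℂ) (hT : 1 < ‖T‖) (hA : ∃ j, A.f j ≠ 0) (hB : ∃ j, B.f j ≠ 0)
    (m n : ℕ) (h1 : FK A ((rr p T : ℝ) : ℂ) m) (h2 : FK B ((rr p T : ℝ) : ℂ) n) :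
    FK (A.mul B) ((rr p T : ℝ) : ℂ) (m + n) := by
  classical
  intro b hb
  rw [toC_mul] at hb
  exact FM_mul A.toC B.toC (toC_ne A hA) (toC_ne B hB) _ (rr_ne T hT) m n
      (fun b1 hb1 => h1 b1 hb1) (fun b1 hb1 => h2 b1 hb1) b hb

theorem rG_mul {w : ℂ → ℕ → ℕ∞} (hw : ∀ T k l, w T k + w T l ≤ w T (k + l + dl ((rr p T : ℝ) : ℂ)))
    (A B : FamQ) (T : ℂ) (hT : 1 < ‖T‖) (hA : ∃ j, A.f j ≠ 0) (hB : ∃ j, B.f j ≠ 0) :
    rG p w A T + rG p w B T ≤ rG p w (A.mul B) T := by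
  by_cases h1 : Nonempty {k : ℕ // FK A ((rr p T : ℝ) : ℂ) (k + dl ((rr p T : ℝ) : ℂ))}
  · by_cases h2 : Nonempty {k : ℕ // FK B ((rr p T : ℝ) : ℂ) (k + dl ((rr p T : ℝ) : ℂ))}
    · refine ENat.iSup_add_iSup_le fun i j => (hw T i j).trans (le_rG ?_)
      have h3 := FK_mul A B T hT hA hB _ _ i.2 j.2
      refine h3.mono (by omega)
    · rw [not_nonempty_iff] at h2
      have e : rG p w B T = 0 := by
        unfold rG
        rw [iSup_of_empty]
        rfl
      rw [e, add_zero]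
      refine rG_le_of fun m hm => ?_
      exact FK_mul A B T hT hA hB m 0 hm (FK_zero _ _)
  · rw [not_nonempty_iff] at h1
    have e : rG p w A T = 0 := by
      unfold rG
      rw [iSup_of_empty]
      rfl
    rw [e, zero_add]
    refine rG_le_of fun m hm => ?_
    have := FK_mul A B T hT hA hB 0 m (FK_zero _ _) hm
    rwa [zero_add] at this

theorem FK_equiv (A B : FamQ) (i : A.σ ≃ B.σ) (k : A.ι ≃ B.ι)
    (h : ∀ j, B.f (k j) = MvPolynomial.rename i (A.f j)) (r : ℂ) (m : ℕ) (hm : FK A r m) :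
    FK B r m := by
  classical
  exact fun b hb => hm b (functionalEq_equiv i k _ _ (toC_equiv A B i k h) b hb)

theorem FK_univ (A : FamQ) (hA : ∃ j, A.f j ≠ 0) (r : ℂ) (m : ℕ) (hm : FK A r m) :
    FK A.univ r (m + dl r) := by
  classical
  intro b hb
  obtain ⟨b', e, hb'⟩ := forced_univ A hA b hb
  have h3 := hm b' hb'
  rw [e]
  unfold dl
  split_ifs with hp
  · rw [pow_succ']
    refine mul_dvd_mul ?_ h3
    rw [X_add_one, hp]
  · exact h3.mul_left _

/-- lifting operators -/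
theorem weyl_lift {σ κ : Type} (Q : Module.End ℂ (MvPolynomial σ ℂ)) (hQ : Q ∈ weyl σ) :
    ∃ Q' ∈ weyl (σ ⊕ κ), ∀ q : MvPolynomial σ ℂ,
      Q' (MvPolynomial.rename Sum.inl q) = MvPolynomial.rename Sum.inl (Q q) := by
  classical
  induction hQ using Algebra.adjoin_induction with
  | mem R h =>
    rcases h with ⟨i, rfl⟩ | ⟨i, rfl⟩
    · refine ⟨_, Algebra.subset_adjoin (Or.inl ⟨Sum.inl i, rfl⟩), fun q => ?_⟩
      change MvPolynomial.X (Sum.inl i) * MvPolynomial.rename Sum.inl q =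
        MvPolynomial.rename Sum.inl (MvPolynomial.X i * q)
      rw [map_mul, MvPolynomial.rename_X]
    · refine ⟨_, Algebra.subset_adjoin (Or.inr ⟨Sum.inl i, rfl⟩), fun q => ?_⟩
      exact pderiv_inl_rename i q
  | algebraMap r =>
    refine ⟨algebraMap ℂ _ r, Subalgebra.algebraMap_mem _ _, fun q => ?_⟩
    change r • MvPolynomial.rename Sum.inl q = MvPolynomial.rename Sum.inl (r • q)
    rw [map_smul]
  | add R R' _ _ h h' =>
    obtain ⟨S, hS, e⟩ := h
    obtain ⟨S', hS', e'⟩ := h'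
    exact ⟨S + S', Subalgebra.add_mem _ hS hS', fun q => by
      rw [LinearMap.add_apply, e, e', LinearMap.add_apply, map_add]⟩
  | mul R R' _ _ h h' =>
    obtain ⟨S, hS, e⟩ := h
    obtain ⟨S', hS', e'⟩ := h'
    exact ⟨S * S', Subalgebra.mul_mem _ hS hS', fun q => by
      rw [Module.End.mul_apply, e', e, Module.End.mul_apply]⟩

theorem isB_rename {σ κ : Type} (F : MvPolynomial σ ℂ) (b : ℂ[X]) (h : IsBFunction F b) :
    IsBFunction (MvPolynomial.rename Sum.inl F : MvPolynomial (σ ⊕ κ) ℂ) b := by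
  classical
  obtain ⟨P, hP⟩ := h
  have hl : ∀ m : ℕ, ∃ Q' ∈ weyl (σ ⊕ κ), ∀ q : MvPolynomial σ ℂ,
      Q' (MvPolynomial.rename Sum.inl q) = MvPolynomial.rename Sum.inl
        ((P m : Module.End ℂ (MvPolynomial σ ℂ)) q) := fun m => weyl_lift (P m).1 (P m).2
  choose Q hQ hQ2 using hl
  refine ⟨∑ m ∈ P.support, Finsupp.single m ⟨Q m, hQ m⟩, fun s => ?_⟩
  rw [← Finsupp.sum_finsetSum_index]
  · have h1 := congrArg (MvPolynomial.rename Sum.inl : MvPolynomial σ ℂ →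
      MvPolynomial (σ ⊕ κ) ℂ) (hP s)
    rw [map_mul, MvPolynomial.rename_C, map_pow, Finsupp.sum, map_sum] at h1
    rw [h1]
    refine Finset.sum_congr rfl fun m _ => ?_
    rw [Finsupp.sum_single_index (by
      rw [ZeroMemClass.coe_zero, LinearMap.zero_apply, smul_zero])]
    change _ = ((s : ℂ) ^ m) • Q m (MvPolynomial.rename Sum.inl F ^ (s + 1))
    rw [← map_pow, hQ2, map_smul]
  · intro a
    rw [ZeroMemClass.coe_zero, LinearMap.zero_apply, smul_zero]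
  · intro a A B
    rw [← smul_add]
    rfl

theorem FK_drop {σ κ : Type} [Fintype σ] [Fintype κ] (g : MvPolynomial σ ℚ) (r : ℂ) (m : ℕ)
    (h : FK ⟨σ ⊕ κ, Fin 1, fun _ => MvPolynomial.rename Sum.inl g⟩ r m) :
    FK ⟨σ, Fin 1, fun _ => g⟩ r m := by
  intro b hb
  apply h b
  have h1 := isB_rename (κ := κ) _ b (Pool.Agent.Y229.isB_of_single _ b hb)
  have h2 := single_of_isB _ b h1
  have e : FamQ.toC ⟨σ ⊕ κ, Fin 1, fun _ => MvPolynomial.rename Sum.inl g⟩ =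
      fun _ : Fin 1 => MvPolynomial.rename Sum.inl
        (MvPolynomial.map (algebraMap ℚ ℂ) g) := by
    funext j
    exact MvPolynomial.map_rename _ _ _
  rw [e]
  exact h2

/-- **The functional equations of a Thom-Sebastiani sum.** -/
theorem FK_ts (A : FamQ) (τ : Type) [Fintype τ] (g : MvPolynomial τ ℚ) (hA : ∃ j, A.f j ≠ 0)
    (hg : g ≠ 0) (b : ℂ[X]) (hb : IsFunctionalEq (tsum A τ g).toC b) :
    ∃ b' : ℂ[X], b = (X + 1) * b' ∧ ∀ (α β : ℂ) (m n : ℕ), 1 ≤ m → 1 ≤ n → FK A α m →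
      FK ⟨τ, Fin 1, fun _ => g⟩ β (n + dl β) → (X - C (α + β)) ^ (m + n - 1) ∣ b' := by
  classical
  set G : MvPolynomial τ ℂ := MvPolynomial.map (algebraMap ℚ ℂ) g with hG
  have hG0 : G ≠ 0 := fun h0 => hg (MvPolynomial.map_injective _ (algebraMap ℚ ℂ).injective (by
    rw [map_zero]; exact h0))
  have h1 : IsFunctionalEq (fun _ : Fin 1 =>
      (univ (fun j => MvPolynomial.rename Sum.inl (A.toC j)) +
        MvPolynomial.rename Sum.inr (MvPolynomial.rename Sum.inr G) :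
          MvPolynomial (A.ι ⊕ (A.σ ⊕ τ)) ℂ)) b := by
    refine functionalEq_equiv (Equiv.sumAssoc A.ι A.σ τ).symm (Equiv.refl (Fin 1)) _ _
      (fun j => ?_) b hb
    change MvPolynomial.map (algebraMap ℚ ℂ) (MvPolynomial.rename Sum.inl
      (∑ j, MvPolynomial.X (Sum.inl j) * MvPolynomial.rename Sum.inr (A.f j) :
        MvPolynomial (A.ι ⊕ A.σ) ℚ) + MvPolynomial.rename Sum.inr g) = _
    rw [map_add, MvPolynomial.map_rename, MvPolynomial.map_rename, map_add,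
      MvPolynomial.rename_rename, MvPolynomial.rename_rename]
    congr 1
    rw [univ, map_sum, map_sum, map_sum]
    refine Finset.sum_congr rfl fun i _ => ?_
    rw [map_mul, map_mul, map_mul, MvPolynomial.map_X, MvPolynomial.rename_X,
      MvPolynomial.rename_X, MvPolynomial.map_rename, MvPolynomial.rename_rename,
      MvPolynomial.rename_rename, MvPolynomial.rename_rename]
    rfl
  obtain ⟨b', e, h2⟩ := ts_dvd Pool.Agent.Y21.TH.tA tB A.toC (toC_ne A hA) G hG0 b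
    (Pool.Agent.Y229.isB_of_single _ b h1)
  refine ⟨b', e, fun α β m n hm hn hα hβ => h2 α β m n hm hn (fun b1 hb1 => hα b1 hb1) ?_⟩
  intro b1 hb1
  have h3 := hβ b1 (single_of_isB _ b1 hb1)
  rw [dl_eq] at h3
  exact h3

end Pool.Agent.Y230.TH
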