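import Pool.Agent.Y230.PS.Fam2

set_option autoImplicit false
set_option linter.unusedSectionVars false
set_option linter.unusedVariables false

/-! # The exponential polynomials of a Thom-Sebastiani sum -/

namespace Pool.Agent.Y230.TH

open Polynomial Pool.Agent.Y230.PS
open MeasureTheory Pool.Agent.Y230.PT

theorem le_sub_one' {a : ℕ} {x : ℕ∞} (h : ((a + 1 : ℕ) : ℕ∞) ≤ x) : (a : ℕ∞) ≤ x - 1 := by
  induction x using ENat.recTopCoe with
  | top => simp
  | coe n =>
    have h1 : a + 1 ≤ n := by exact_mod_cast h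
    have h2 : a ≤ n - 1 := by omega
    exact_mod_cast h2

/-- the operator `shift - 1 / T0` lowers the multiplicity of `T0` -/
theorem EP_op (m : ℂ → ℕ∞) (T0 : ℂ) (c : ℕ → ℂ) (hc : c ∈ EP m) :
    op T0⁻¹ c ∈ EP (fun T => if T = T0 then m T - 1 else m T) := by
  classical
  induction hc using Submodule.span_induction with
  | mem c h =>
    obtain ⟨T, hT, a, ha, hc⟩ := h
    by_cases h : T = T0
    · subst h
      rcases a with _ | a
      · exact N0_EP _ (op_mem _ 0 _ hc _)
      · refine Submodule.subset_span ⟨T, hT, a, ?_, hc⟩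
        beta_reduce
        rw [if_pos rfl]
        exact le_sub_one' ha
    · refine Submodule.subset_span ⟨T, hT, a, ?_, op_mem _ _ _ hc _⟩
      beta_reduce
      rw [if_neg h]
      exact ha
  | zero => rw [map_zero]; exact Submodule.zero_mem _
  | add c d _ _ h h' => rw [map_add]; exact Submodule.add_mem _ h h'
  | smul r c _ h => rw [map_smul]; exact Submodule.smul_mem _ _ h

theorem ser_sft (c : ℕ → ℂ) : PowerSeries.X * ser (sft c) = ser c - PowerSeries.C (c 0) := by
  ext n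
  rcases n with _ | n
  · rw [map_sub, PowerSeries.coeff_zero_X_mul, coeff_ser, PowerSeries.coeff_C, if_pos rfl, sub_self]
  · rw [map_sub, PowerSeries.coeff_succ_X_mul, coeff_ser, coeff_ser, PowerSeries.coeff_C,
      if_neg (Nat.succ_ne_zero n), sub_zero, sft_apply]

/-- the operator `shift - 1 / T0` lowers the multiplicity of `T0` by at most one -/
theorem EP_of_op (m : ℂ → ℕ∞) (T0 : ℂ) (hT0 : T0 ≠ 0) (c : ℕ → ℂ) (hc : op T0⁻¹ c ∈ EP m) :
    c ∈ EP (fun T => m T + if T = T0 then 1 else 0) := by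
  classical
  obtain ⟨D, P, hD, hP, hm⟩ := EP_rat m _ hc
  set e : ℕ → ℂ := fun n => PowerSeries.coeff n (((X - C T0 : ℂ[X]) : PowerSeries ℂ) * ser c)
    with he
  have h1 := step c T0 hT0
  have h2 := ser_sft e
  have h3 : ser e = ((X - C T0 : ℂ[X]) : PowerSeries ℂ) * ser c := ser_coeff _
  rw [show sft e = (-T0) • op T0⁻¹ c from h1, ser_smul, h3] at h2
  have hne : D * (X - C T0) ≠ 0 := mul_ne_zero hD (X_sub_C_ne_zero _)
  refine rat_EP _ (D * (X - C T0)) hne c (X * C (-T0) * P + C (e 0) * D) ?_ fun T hT => ?_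
  · rw [Polynomial.coe_mul, mul_assoc, Polynomial.coe_add, Polynomial.coe_mul, Polynomial.coe_mul,
      Polynomial.coe_mul, Polynomial.coe_X, Polynomial.coe_C, Polynomial.coe_C, ← hP]
    linear_combination (-(D : PowerSeries ℂ)) * h2
  · rw [rootMultiplicity_mul hne, rootMultiplicity_X_sub_C]
    push_cast
    refine add_le_add (hm T hT) ?_
    by_cases h : T = T0
    · simp [h]
    · simp [h]

theorem EP_mono {m m' : ℂ → ℕ∞} (h : ∀ T, T ≠ 0 → m T ≤ m' T) : EP m ≤ EP m' := by
  refine Submodule.span_mono ?_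
  rintro c ⟨T, hT, a, ha, hc⟩
  exact ⟨T, hT, a, ha.trans (h T hT), hc⟩

theorem EP_sft (m : ℂ → ℕ∞) (c : ℕ → ℂ) (hc : c ∈ EP m) : sft c ∈ EP m := by
  induction hc using Submodule.span_induction with
  | mem c h =>
    obtain ⟨T, hT, a, ha, hc⟩ := h
    exact Submodule.subset_span ⟨T, hT, a, ha, sft_mem _ _ _ hc⟩
  | zero => rw [map_zero]; exact Submodule.zero_mem _
  | add c d _ _ h h' => rw [map_add]; exact Submodule.add_mem _ h h'
  | smul r c _ h => rw [map_smul]; exact Submodule.smul_mem _ _ h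

variable {p : ℕ} [Fact p.Prime]

/-- the recursion of the volumes of a Thom-Sebastiani sum -/
theorem EP_ts (m1 m2 m3 : ℂ → ℕ∞)
    (H : ∀ T1 T2 : ℂ, 1 < ‖T1‖ → 1 < ‖T2‖ → ∀ a b : ℕ, 1 ≤ a → 1 ≤ b → (a : ℕ∞) ≤ m1 T1 →
      ((b + (if T2 = (p : ℂ) then 1 else 0) : ℕ) : ℕ∞) ≤ m2 T2 →
      ((a + b - 1 + (if T1 * T2 = (p : ℂ) then 1 else 0) : ℕ) : ℕ∞) ≤ m3 (T1 * T2))
    (H1 : 1 ≤ m3 (p : ℂ)) (v u w : ℕ → ℂ) (hv : v ∈ EP (tr m1)) (hu : u ∈ EP (tr m2))
    (hw : ∀ e, (p : ℂ) * w (e + 1) - w e = v (e + 1) * ((p : ℂ) * u (e + 1) - u e)) :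
    w ∈ EP (tr m3) := by
  classical
  have hp0 : (p : ℂ) ≠ 0 := by exact_mod_cast (Fact.out : p.Prime).ne_zero
  have hp1 : 1 < ‖(p : ℂ)‖ := by
    rw [Complex.norm_natCast]
    exact_mod_cast (Fact.out : p.Prime).one_lt
  have h1 := EP_op (tr m2) (p : ℂ) u hu
  have h2 := EP_sft (tr m1) v hv
  have h3 : op (p : ℂ)⁻¹ w = sft v * op (p : ℂ)⁻¹ u := by
    funext e
    rw [Pi.mul_apply, op_apply, op_apply, sft_apply]
    have := hw e
    field_simp
    linear_combination this
  have h4 : op (p : ℂ)⁻¹ w ∈ EP (tr fun T => if T = (p : ℂ) then m3 T - 1 else m3 T) := by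
    rw [h3]
    refine had _ _ _ (fun T1 T2 hT1 hT2 a b ha hb h5 h6 => ?_) _ _ h2 h1
    beta_reduce at h6
    have h7 : 1 < ‖T1‖ := by
      by_contra hn
      rw [tr, if_pos (not_lt.1 hn)] at h5
      have : (a : ℕ∞) = 0 := nonpos_iff_eq_zero.1 h5
      have : a = 0 := by exact_mod_cast this
      omega
    have h8 : 1 < ‖T2‖ := by
      by_contra hn
      have h9 : (if T2 = (p : ℂ) then tr m2 T2 - 1 else tr m2 T2) = 0 := by
        rw [tr, if_pos (not_lt.1 hn)]
        split_ifs <;> simp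
      rw [h9] at h6
      have : (b : ℕ∞) = 0 := nonpos_iff_eq_zero.1 h6
      have : b = 0 := by exact_mod_cast this
      omega
    rw [tr, if_neg (not_le.2 h7)] at h5
    have h9 : ((b + (if T2 = (p : ℂ) then 1 else 0) : ℕ) : ℕ∞) ≤ m2 T2 := by
      rw [tr, if_neg (not_le.2 h8)] at h6
      split_ifs at h6 ⊢ with hT
      · have h10 : (1 : ℕ∞) ≤ m2 T2 := by
          by_contra hn
          have : m2 T2 = 0 := by
            rw [not_le] at hn
            exact Order.lt_one_iff.1 hn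
          rw [this] at h6
          have : (b : ℕ∞) = 0 := nonpos_iff_eq_zero.1 (by simpa using h6)
          have : b = 0 := by exact_mod_cast this
          omega
        have h11 := add_le_add_left h6 1
        push_cast
        calc (b : ℕ∞) + 1 ≤ m2 T2 - 1 + 1 := by simpa [add_comm] using h11
          _ = m2 T2 := tsub_add_cancel_of_le h10
      · simpa using h6
    have h10 := H T1 T2 h7 h8 a b ha hb h5 h9
    have h11 : ¬ ‖T1 * T2‖ ≤ 1 := by
      rw [not_le, norm_mul]
      exact one_lt_mul_of_lt_of_le h7 h8.le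
    rw [tr, if_neg h11]
    split_ifs with hT
    · rw [if_pos hT] at h10
      exact le_sub_one' h10
    · rw [if_neg hT, add_zero] at h10
      exact h10
  refine EP_mono (fun T hT => ?_) (EP_of_op _ _ hp0 w h4)
  by_cases hT1 : ‖T‖ ≤ 1
  · have : T ≠ (p : ℂ) := by
      rintro rfl
      exact absurd hp1 (not_lt.2 hT1)
    rw [tr, if_pos hT1, tr, if_pos hT1, if_neg this, add_zero]
  · rw [tr, if_neg hT1, tr, if_neg hT1]
    split_ifs with hT2
    · rw [tsub_add_cancel_of_le]
      rw [hT2]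
      exact H1
    · rw [add_zero]

end Pool.Agent.Y230.TH
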