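import Pool.Agent.Y230.TH.TopDefs
import Pool.Agent.Y230.TH.Mlt
import Pool.Agent.Y230.PL.Zeta

set_option autoImplicit false
set_option linter.unusedSectionVars false
set_option linter.unusedVariables false

/-! # Topological Thom-Sebastiani sums: poles and roots -/

namespace Pool.Agent.Y230.TH

open Polynomial Pool.Agent.W574.SM Pool.Agent.W574.CN Pool.Agent.W574.RO Pool.Agent.Y229
open Pool.Agent.W574.MO Pool.Agent.W425.SM Pool.Agent.W425.SV Pool.Agent.W422.GC
open Pool.Agent.W425.ND Pool.Agent.W574.HS Pool.Agent.Y230.PS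
open Pool.Agent.Y230.TS (StrongGlobal strongGlobal_poles)
open Pool.Agent.H628R4.TP (IsBFunction)

theorem fm_one {σ ι : Type} [Fintype ι] (f : ι → MvPolynomial σ ℂ) (r : ℂ) :
    FM f r 1 ↔ Forced f r := by
  unfold FM Forced
  refine forall_congr' fun b => imp_congr_right fun hb => ?_
  rw [pow_one, dvd_iff_isRoot, IsRoot.def]

/-- the properties of the members of the classes -/
structure Cl (T : AddSubmonoid ℂ) (c : Bool) (A : Fam) (Z : RatFunc ℂ) : Prop where
  fin : Finite A.σ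
  ne : ∃ j, A.f j ≠ 0
  pole : ∀ s : ℂ, Z.denom.eval s = 0 → ∃ t ∈ T, FM A.f (s - t) 1
  one : c = true → Z.denom.eval (-1) = 0 → FM A.f (-1) 1
  ref : c = true → ∀ s : ℂ, ((RatFunc.X + 1) * Z).denom.eval s = 0 →
    ∃ t ∈ T, FM A.f (s - t) (1 + dl (s - t))

theorem X1_reg (s : ℂ) : (RatFunc.X + 1 : RatFunc ℂ) ∈ Reg s :=
  (Reg s).add_mem (X_reg s) (Reg s).one_mem

theorem X1_ne : (RatFunc.X + 1 : RatFunc ℂ) ≠ 0 := by
  have := XC_ne 1
  rwa [map_one] at this

theorem X1_inv (s : ℂ) (h : s ≠ -1) : (RatFunc.X + 1 : RatFunc ℂ)⁻¹ ∈ Reg s := by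
  have := inv_reg s 1 h
  rwa [map_one] at this

theorem pole_of_ref (Z : RatFunc ℂ) (s : ℂ) (h : ((RatFunc.X + 1) * Z).denom.eval s = 0) :
    Z.denom.eval s = 0 := by
  by_contra h1
  exact Reg_denom s _ ((Reg s).mul_mem (X1_reg s) (mem_Reg_of_denom _ _ h1)) h

theorem ref_of_pole (Z : RatFunc ℂ) (s : ℂ) (h : Z.denom.eval s = 0) :
    ((RatFunc.X + 1) * Z).denom.eval s = 0 ∨ s = -1 := by
  by_contra h1
  push Not at h1
  refine Reg_denom s _ ?_ h
  have h2 := (Reg s).mul_mem (X1_inv s h1.2) (mem_Reg_of_denom _ _ h1.1)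
  rwa [← mul_assoc, inv_mul_cancel₀ X1_ne, one_mul] at h2

/-- the roots of the reduced polynomial -/
theorem ref_of_bz (b P : ℂ[X]) (Z : RatFunc ℂ)
    (h : algebraMap ℂ[X] (RatFunc ℂ) b * Z = algebraMap ℂ[X] (RatFunc ℂ) P) (s : ℂ)
    (hs : ((RatFunc.X + 1) * Z).denom.eval s = 0) : (X - C s) ^ (1 + dl s) ∣ b := by
  have h1 : b.eval s = 0 := pole_dvd b P Z h s (pole_of_ref Z s hs)
  rw [dl_eq]
  split_ifs with h2
  · subst h2
    obtain ⟨b', rfl⟩ := dvd_iff_isRoot.2 h1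
    have e : algebraMap ℂ[X] (RatFunc ℂ) b' * ((RatFunc.X + 1) * Z) =
        algebraMap ℂ[X] (RatFunc ℂ) P := by
      rw [← h, map_mul, ← X_add_one, map_add, map_one, RatFunc.algebraMap_X]
      ring
    have h3 := pole_dvd b' P _ e (-1) hs
    obtain ⟨b'', rfl⟩ := dvd_iff_isRoot.2 h3
    exact ⟨b'', by ring⟩
  · rw [add_zero, pow_one]
    exact dvd_iff_isRoot.2 h1

/-- the class of a hypersurface with `b Z` a polynomial -/
theorem cl_of_bz (T : AddSubmonoid ℂ) (A : Fam) (Z : RatFunc ℂ) (hfin : Finite A.σ)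
    (hne : ∃ j, A.f j ≠ 0) (h : ∀ b : ℂ[X], IsFunctionalEq A.f b → ∃ P : ℂ[X],
      algebraMap ℂ[X] (RatFunc ℂ) b * Z = algebraMap ℂ[X] (RatFunc ℂ) P) : Cl T true A Z where
  fin := hfin
  ne := hne
  pole s hs := ⟨0, T.zero_mem, by
    rw [sub_zero, fm_one]
    intro b hb
    obtain ⟨P, hP⟩ := h b hb
    exact pole_dvd b P Z hP s hs⟩
  one _ hs := by
    rw [fm_one]
    intro b hb
    obtain ⟨P, hP⟩ := h b hb
    exact pole_dvd b P Z hP _ hs
  ref _ s hs := ⟨0, T.zero_mem, by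
    rw [sub_zero]
    intro b hb
    obtain ⟨P, hP⟩ := h b hb
    exact ref_of_bz b P Z hP s hs⟩

theorem strongHyp_cl (T : AddSubmonoid ℂ) (A : Fam) (Z : RatFunc ℂ) (h : StrongHyp A Z) :
    Cl T true A Z := by
  classical
  cases h with
  | curve g hg Z hZ =>
    exact cl_of_bz T _ Z (inferInstanceAs (Finite (Fin 2))) ⟨(0 : Fin 1), hg⟩ fun b hb =>
      Pool.Agent.Y230.PL.plane_q2 _ b hb Z hZ
  | generic r N hr F v hv hv0 h hh a ha R hR =>
    obtain ⟨g, hg, h1⟩ := Pool.Agent.W425.GN.gen_top hr v hv hv0 h hh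
    have hga : MvPolynomial.aeval a g ≠ 0 := fun h0 => hg (ha (by rw [h0, map_zero]))
    obtain ⟨g', hg', h1'⟩ := Pool.Agent.W425.GN.gen_ne (show 0 < r by omega) v hv h
    have hga' : MvPolynomial.aeval a g' ≠ 0 := fun h0 => hg' (ha (by rw [h0, map_zero]))
    have hne : (sparse v a + MvPolynomial.map (algebraMap F ℂ) h) ≠ 0 := h1' a hga'
    exact cl_of_bz T _ _ (inferInstanceAs (Finite (Fin N))) ⟨(0 : Fin 1), hne⟩ fun b hb =>
      (h1 a hga).2 b (isB_of_single _ b hb) R hR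

theorem weakHyp_cl (A : Fam) (Z : RatFunc ℂ) (h : WeakHyp A Z) : Cl natC true A Z := by
  classical
  cases h with
  | strong _ _ h => exact strongHyp_cl natC A Z h
  | nondeg r N hr v a hv hv0 hnd R hR h1 =>
    have : NeZero r := ⟨by omega⟩
    have hne : sparse v a ≠ 0 := spa_ne_zero hv a hnd
    have key : ∀ s : ℂ, (topZetaG v R).denom.eval s = 0 →
        ∃ i : ℕ, Forced (fun _ : Fin 1 => sparse v a) (s - i) := by
      intro s₀ hs
      refine forced_shift _ s₀ (fun b hb0 hb => ?_) (exists_fe _ ⟨0, hne⟩)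
      obtain ⟨h1, K, P, hP⟩ := global_of parts hr v a hv hv0 hnd R hR b (isB_of_single _ b hb)
      exact pole_of b hb0 h1 _ K P hP s₀ hs
    refine ⟨inferInstanceAs (Finite (Fin N)), ⟨(0 : Fin 1), hne⟩, fun s hs => ?_, fun _ hs => ?_,
      fun _ s hs => ?_⟩
    · obtain ⟨i, hi⟩ := key s hs
      exact ⟨i, (mem_natC _).2 ⟨i, rfl⟩, (fm_one _ _).2 hi⟩
    · rw [fm_one]
      intro b hb
      exact (global_of parts hr v a hv hv0 hnd R hR b (isB_of_single _ b hb)).1
    · obtain ⟨i, hi⟩ := key s (pole_of_ref _ s hs)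
      refine ⟨i, (mem_natC _).2 ⟨i, rfl⟩, ?_⟩
      have h2 : s - i ≠ -1 := by
        intro h0
        refine h1 i ?_
        have : (i : ℂ) - 1 = s := by linear_combination -h0
        rw [this]
        exact hs
      rw [dl_eq, if_neg h2, add_zero]
      exact (fm_one _ _).2 hi

theorem fm_univ (A : Fam) (hA : ∃ j, A.f j ≠ 0) (r : ℂ) (m : ℕ) (h : FM A.f r m) :
    FM (univFam A).f r (m + dl r) := by
  classical
  intro b hb
  rw [dl_eq]
  exact FMB_univ A.f hA r m h b (isB_of_single _ b hb)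

theorem fm_mul (A B : Fam) (hfin : Finite A.σ) (hA : ∃ j, A.f j ≠ 0) (hB : ∃ j, B.f j ≠ 0)
    (h1 : FM A.f (-1) 1) (h2 : FM B.f (-1) 1) : FM (A.mul B).f (-1) 2 := by
  classical
  refine FM_mul A.f B.f hA hB (-1) (fun N h => ?_) 1 1 h1 h2
  have h3 : ((N + 1 : ℕ) : ℂ) = 0 := by
    push_cast
    rw [h]
    ring
  exact absurd (Nat.cast_eq_zero.1 h3) (Nat.succ_ne_zero N)

theorem fm_mulL (A B : Fam) (r : ℂ) (m : ℕ) (hB : ∃ j, B.f j ≠ 0) (h : FM A.f r m) :
    FM (A.mul B).f r m := by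
  classical
  exact fun b hb => h b (functionalEq_mul A.f B.f hB b hb)

theorem fm_mulR (A B : Fam) (r : ℂ) (m : ℕ) (hA : ∃ j, A.f j ≠ 0) (h : FM B.f r m) :
    FM (A.mul B).f r m := by
  classical
  exact fun b hb => h b (functionalEq_mul' A.f B.f hA b hb)

theorem fm_equiv (A B : Fam) (i : A.σ ≃ B.σ) (k : A.ι ≃ B.ι)
    (h : ∀ j, B.f (k j) = MvPolynomial.rename i (A.f j)) (r : ℂ) (m : ℕ) (hm : FM A.f r m) :
    FM B.f r m := by
  classical
  exact fun b hb => hm b (functionalEq_equiv i k A.f B.f h b hb)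

theorem fm_drop {σ κ : Type} (g : MvPolynomial σ ℂ) (r : ℂ) (m : ℕ)
    (h : FM (fun _ : Fin 1 => (MvPolynomial.rename Sum.inl g : MvPolynomial (σ ⊕ κ) ℂ)) r m) :
    FM (fun _ : Fin 1 => g) r m :=
  fun b hb => h b (single_of_isB _ b (isB_rename (κ := κ) g b (isB_of_single _ b hb)))

/-- **The functional equations of a Thom-Sebastiani sum.** -/
theorem fm_ts (A : Fam) (τ : Type) (g : MvPolynomial τ ℂ) (hA : ∃ j, A.f j ≠ 0)
    (hg : g ≠ 0) (b : ℂ[X]) (hb : IsFunctionalEq (tsFam A τ g).f b) :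
    ∃ b' : ℂ[X], b = (X + 1) * b' ∧ ∀ (α β : ℂ) (m n : ℕ), 1 ≤ m → 1 ≤ n → FM A.f α m →
      FM (fun _ : Fin 1 => g) β (n + dl β) → (X - C (α + β)) ^ (m + n - 1) ∣ b' := by
  classical
  have h1 : IsFunctionalEq (fun _ : Fin 1 =>
      (univ (fun j => MvPolynomial.rename Sum.inl (A.f j)) +
        MvPolynomial.rename Sum.inr (MvPolynomial.rename Sum.inr g) :
          MvPolynomial (A.ι ⊕ (A.σ ⊕ τ)) ℂ)) b := by
    refine functionalEq_equiv (Equiv.sumAssoc A.ι A.σ τ).symm (Equiv.refl (Fin 1)) _ _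
      (fun j => ?_) b hb
    change MvPolynomial.rename Sum.inl
      (∑ j, MvPolynomial.X (Sum.inl j) * MvPolynomial.rename Sum.inr (A.f j) :
        MvPolynomial (A.ι ⊕ A.σ) ℂ) + MvPolynomial.rename Sum.inr g = _
    rw [map_add, MvPolynomial.rename_rename, MvPolynomial.rename_rename]
    congr 1
    rw [univ, map_sum, map_sum]
    refine Finset.sum_congr rfl fun i _ => ?_
    rw [map_mul, map_mul, MvPolynomial.rename_X,
      MvPolynomial.rename_X, MvPolynomial.rename_rename,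
      MvPolynomial.rename_rename, MvPolynomial.rename_rename]
    rfl
  obtain ⟨b', e, h2⟩ := ts_dvd Pool.Agent.Y21.TH.tA tB A.f hA g hg b (isB_of_single _ b h1)
  refine ⟨b', e, fun α β m n hm hn hα hβ => h2 α β m n hm hn (fun b1 hb1 => hα b1 hb1) ?_⟩
  intro b1 hb1
  have h3 := hβ b1 (single_of_isB _ b1 hb1)
  rw [dl_eq] at h3
  exact h3

/-- setting `y = 0` -/
theorem tsFam_ne (A : Fam) (τ : Type) (g : MvPolynomial τ ℂ) (hg : g ≠ 0) :
    (tsFam A τ g).f 0 ≠ 0 := by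
  intro h0
  apply hg
  have h1 : (MvPolynomial.rename Sum.inl (∑ j, MvPolynomial.X (Sum.inl j) *
    MvPolynomial.rename Sum.inr (A.f j) : MvPolynomial (A.ι ⊕ A.σ) ℂ) +
      MvPolynomial.rename Sum.inr g : MvPolynomial ((A.ι ⊕ A.σ) ⊕ τ) ℂ) = 0 := h0
  set ε : (A.ι ⊕ A.σ) ⊕ τ → MvPolynomial τ ℂ :=
    Sum.elim (Sum.elim (fun _ : A.ι => 0) (fun _ : A.σ => 0)) MvPolynomial.X with hε
  have h2 := congrArg (MvPolynomial.aeval ε :
    MvPolynomial ((A.ι ⊕ A.σ) ⊕ τ) ℂ → MvPolynomial τ ℂ) h1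
  rw [map_add, MvPolynomial.aeval_rename, MvPolynomial.aeval_rename, map_zero] at h2
  have e1 : ε ∘ Sum.inr = MvPolynomial.X := rfl
  rw [e1, MvPolynomial.aeval_X_left_apply, map_sum] at h2
  rw [Finset.sum_eq_zero, zero_add] at h2
  · exact h2
  · intro j _
    rw [map_mul, MvPolynomial.aeval_X]
    simp [hε]

theorem univFam_ne (A : Fam) (hA : ∃ j, A.f j ≠ 0) : (univFam A).f 0 ≠ 0 := by
  classical
  exact univ_ne_zero A.f hA

/-- **The induction.** -/
theorem tt_closure (T : AddSubmonoid ℂ) (At HAt : Fam → RatFunc ℂ → Prop)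
    (hAt : ∀ A Z, At A Z → Finite A.σ ∧ (∃ j, A.f j ≠ 0) ∧
      ∀ s₀ : ℂ, Z.denom.eval s₀ = 0 → ∃ t ∈ T, FoG A (s₀ - t))
    (hHAt : ∀ A Z, HAt A Z → Cl T true A Z)
    (c : Bool) (A : Fam) (Z : RatFunc ℂ) (h : TT At HAt c A Z) : Cl T c A Z := by
  induction h with
  | atom A Z h =>
    obtain ⟨h1, h2, h3⟩ := hAt A Z h
    refine ⟨h1, h2, fun s hs => ?_, fun h0 => absurd h0 (by simp), fun h0 => absurd h0 (by simp)⟩
    obtain ⟨t, ht, h4⟩ := h3 s hs
    exact ⟨t, ht, (fm_one _ _).2 h4⟩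
  | hatom A Z h => exact hHAt A Z h
  | hyp A Z h ih =>
    exact ⟨ih.fin, ih.ne, ih.pole, fun h0 => absurd h0 (by simp), fun h0 => absurd h0 (by simp)⟩
  | sum A B Z W v w hv hw hv0 hw0 hA hB ihA ihB =>
    have := ihA.fin
    have := ihB.fin
    refine ⟨inferInstanceAs (Finite (A.σ ⊕ B.σ)), ?_, fun s hs => ?_,
      fun h0 => absurd h0 (by simp), fun h0 => absurd h0 (by simp)⟩
    · obtain ⟨j, hj⟩ := ihA.ne
      refine ⟨Sum.inl j, ?_⟩
      change MvPolynomial.rename Sum.inl (A.f j) ≠ 0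
      rw [Ne, map_eq_zero_iff _ (MvPolynomial.rename_injective _ Sum.inl_injective)]
      exact hj
    · obtain ⟨p, hp, q, hq, rfl⟩ := lap2_pole v w s hs
      obtain ⟨t, ht, h1⟩ := ihA.pole _ (pole_of_exp Z v hv hv0 p hp)
      obtain ⟨t', ht', h2⟩ := ihB.pole _ (pole_of_exp W w hw hw0 q hq)
      refine ⟨t + t', T.add_mem ht ht', ?_⟩
      have h3 : FoG (A.sum B) ((-p.1 - t) + (-q.1 - t')) :=
        isForcing_global.sum A B _ _ ((fm_one _ _).1 h1) ((fm_one _ _).1 h2)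
      have h4 : -p.1 + -q.1 - (t + t') = (-p.1 - t) + (-q.1 - t') := by ring
      rw [h4]
      exact (fm_one _ _).2 h3
  | mul c A B Z W hA hB ihA ihB =>
    have hfA := ihA.fin
    have hfB := ihB.fin
    have hneA := ihA.ne
    have hneB := ihB.ne
    have hpole : ∀ s : ℂ, (Z * W).denom.eval s = 0 → Z.denom.eval s = 0 ∨ W.denom.eval s = 0 := by
      intro s hs
      by_contra hne
      push Not at hne
      exact Reg_denom s _ ((Reg s).mul_mem (mem_Reg_of_denom _ _ hne.1)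
        (mem_Reg_of_denom _ _ hne.2)) hs
    refine ⟨inferInstanceAs (Finite (A.σ ⊕ B.σ)), ?_, fun s hs => ?_, fun h0 hs => ?_,
      fun h0 s hs => ?_⟩
    · obtain ⟨j, hj⟩ := hneA
      obtain ⟨k, hk⟩ := hneB
      refine ⟨(j, k), ?_⟩
      change (MvPolynomial.rename Sum.inl (A.f j) * MvPolynomial.rename Sum.inr (B.f k) :
        MvPolynomial (A.σ ⊕ B.σ) ℂ) ≠ 0
      refine mul_ne_zero ?_ ?_
      · rw [Ne, map_eq_zero_iff _ (MvPolynomial.rename_injective _ Sum.inl_injective)]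
        exact hj
      · rw [Ne, map_eq_zero_iff _ (MvPolynomial.rename_injective _ Sum.inr_injective)]
        exact hk
    · rcases hpole s hs with h1 | h1
      · obtain ⟨t, ht, h2⟩ := ihA.pole s h1
        exact ⟨t, ht, fm_mulL A B _ _ hneB h2⟩
      · obtain ⟨t, ht, h2⟩ := ihB.pole s h1
        exact ⟨t, ht, fm_mulR A B _ _ hneA h2⟩
    · rcases hpole _ hs with h1 | h1
      · exact fm_mulL A B _ _ hneB (ihA.one h0 h1)
      · exact fm_mulR A B _ _ hneA (ihB.one h0 h1)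
    · by_cases hZ : ((RatFunc.X + 1) * Z).denom.eval s = 0
      · obtain ⟨t, ht, h2⟩ := ihA.ref h0 s hZ
        exact ⟨t, ht, fm_mulL A B _ _ hneB h2⟩
      · by_cases hW : ((RatFunc.X + 1) * W).denom.eval s = 0
        · obtain ⟨t, ht, h2⟩ := ihB.ref h0 s hW
          exact ⟨t, ht, fm_mulR A B _ _ hneA h2⟩
        · have hZ' : Z.denom.eval s = 0 := by
            by_contra h1
            refine Reg_denom s _ ?_ hs
            have := (Reg s).mul_mem (mem_Reg_of_denom _ _ h1) (mem_Reg_of_denom _ _ hW)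
            have e : Z * ((RatFunc.X + 1) * W) = (RatFunc.X + 1) * (Z * W) := by ring
            rwa [e] at this
          have hW' : W.denom.eval s = 0 := by
            by_contra h1
            refine Reg_denom s _ ?_ hs
            have := (Reg s).mul_mem (mem_Reg_of_denom _ _ hZ) (mem_Reg_of_denom _ _ h1)
            have e : (RatFunc.X + 1) * Z * W = (RatFunc.X + 1) * (Z * W) := by ring
            rwa [e] at this
          rcases ref_of_pole Z s hZ' with h1 | rfl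
          · exact absurd h1 hZ
          · refine ⟨0, T.zero_mem, ?_⟩
            rw [sub_zero, dl_eq, if_pos rfl]
            exact fm_mul A B hfA hneA hneB (ihA.one h0 hZ') (ihB.one h0 hW')
  | univ A Z hA ihA =>
    have hfA := ihA.fin
    have hneA := ihA.ne
    have h1 : FM (univFam A).f (-1) 1 := by
      have := fm_univ A hneA (-1) 0 (fun b hb => by rw [pow_zero]; exact one_dvd _)
      rwa [dl_eq, if_pos rfl] at this
    refine ⟨inferInstanceAs (Finite (A.ι ⊕ A.σ)), ⟨0, univFam_ne A hneA⟩, fun s hs => ?_,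
      fun _ _ => h1, fun _ s hs => ?_⟩
    · rcases pole_form Z s hs with h2 | rfl
      · obtain ⟨t, ht, h3⟩ := ihA.pole s h2
        exact ⟨t, ht, (fm_univ A hneA _ _ h3).mono (Nat.le_add_right _ _)⟩
      · exact ⟨0, T.zero_mem, by rw [sub_zero]; exact h1⟩
    · have e : (RatFunc.X + 1) * (Z * (RatFunc.X + 1)⁻¹) = Z := by
        have := X1_ne
        field_simp
      rw [e] at hs
      obtain ⟨t, ht, h3⟩ := ihA.pole s hs
      exact ⟨t, ht, fm_univ A hneA _ _ h3⟩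
  | ts A τ g Z W v w c hv hw hv0 hw0 hA hg ihA ihg =>
    have hfA := ihA.fin
    have hfg := ihg.fin
    have hneA := ihA.ne
    have hg0 : g ≠ 0 := by
      obtain ⟨j, hj⟩ := ihg.ne
      exact hj
    have h1 : FM (tsFam A τ g).f (-1) 1 := by
      intro b hb
      obtain ⟨b', rfl, -⟩ := fm_ts A τ g hneA hg0 b hb
      rw [pow_one, X_add_one]
      exact dvd_mul_right _ _
    have href : ∀ s : ℂ, (1 - RatFunc.X * (lap2 v w - RatFunc.C (c * val0 v))).denom.eval s = 0 →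
        ∃ t ∈ T, FM (tsFam A τ g).f (s - t) (1 + dl (s - t)) := by
      intro s hs
      have h2 : (1 - RatFunc.X * lap2 v w).denom.eval s = 0 := by
        by_contra h2
        refine Reg_denom s _ ?_ hs
        have h3 := (Reg s).add_mem (mem_Reg_of_denom _ _ h2)
          ((Reg s).mul_mem (X_reg s) (C_reg s (c * val0 v)))
        have e : 1 - RatFunc.X * lap2 v w + RatFunc.X * RatFunc.C (c * val0 v) =
          1 - RatFunc.X * (lap2 v w - RatFunc.C (c * val0 v)) := by ring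
        rwa [e] at h3
      obtain ⟨p, hp, q, hq, rfl⟩ := lap2_pole v w s h2
      obtain ⟨t, ht, h3⟩ := ihA.pole _ (pole_of_exp Z v hv hv0 p hp)
      have h4 : ((RatFunc.X + 1) * W).denom.eval (-q.1) = 0 := by
        have h5 := pole_of_exp ((RatFunc.X + 1) * W - RatFunc.X * RatFunc.C c) w
          (by linear_combination hw) hw0 q hq
        by_contra h6
        exact Reg_denom _ _ ((Reg _).sub_mem (mem_Reg_of_denom _ _ h6)
          ((Reg _).mul_mem (X_reg _) (C_reg _ c))) h5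
      obtain ⟨t', ht', h5⟩ := ihg.ref rfl _ h4
      refine ⟨t + t', T.add_mem ht ht', ?_⟩
      have h6 : -p.1 + -q.1 - (t + t') = (-p.1 - t) + (-q.1 - t') := by ring
      rw [h6]
      intro b hb
      obtain ⟨b', rfl, h7⟩ := fm_ts A τ g hneA hg0 b hb
      have h8 := h7 _ _ 1 1 le_rfl le_rfl h3 h5
      rw [dl_eq]
      split_ifs with h9
      · rw [pow_succ']
        refine mul_dvd_mul ?_ h8
        rw [X_add_one, h9]
      · exact h8.mul_left _
    refine ⟨inferInstanceAs (Finite ((A.ι ⊕ A.σ) ⊕ τ)), ⟨0, tsFam_ne A τ g hg0⟩, fun s hs => ?_,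
      fun _ _ => h1, fun _ s hs => ?_⟩
    · rcases pole_form _ s hs with h2 | rfl
      · obtain ⟨t, ht, h3⟩ := href s h2
        exact ⟨t, ht, h3.mono (Nat.le_add_right _ _)⟩
      · exact ⟨0, T.zero_mem, by rw [sub_zero]; exact h1⟩
    · refine href s ?_
      have e : (RatFunc.X + 1) * ((1 - RatFunc.X * (lap2 v w - RatFunc.C (c * val0 v))) *
          (RatFunc.X + 1)⁻¹) = 1 - RatFunc.X * (lap2 v w - RatFunc.C (c * val0 v)) := by
        rw [mul_comm, mul_assoc, inv_mul_cancel₀ X1_ne, mul_one]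
      rwa [e] at hs
  | drop σ κ g Z h ih =>
    have hf : Finite (σ ⊕ κ) := ih.fin
    have hf' : Finite σ := Finite.of_injective (Sum.inl : σ → σ ⊕ κ) Sum.inl_injective
    refine ⟨hf', ⟨(0 : Fin 1), fun h0 => ?_⟩, fun s hs => ?_, fun h0 hs => ?_, fun h0 s hs => ?_⟩
    · obtain ⟨j, hj⟩ := ih.ne
      apply hj
      have h1 : g = 0 := h0
      change MvPolynomial.rename Sum.inl g = 0
      rw [h1, map_zero]
    · obtain ⟨t, ht, h1⟩ := ih.pole s hs
      exact ⟨t, ht, fm_drop (κ := κ) g _ _ h1⟩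
    · exact fm_drop (κ := κ) g _ _ (ih.one h0 hs)
    · obtain ⟨t, ht, h1⟩ := ih.ref h0 s hs
      exact ⟨t, ht, fm_drop (κ := κ) g _ _ h1⟩
  | equiv c A B i k h Z hA ihA =>
    have hf := ihA.fin
    refine ⟨Finite.of_equiv A.σ i, ?_, fun s hs => ?_, fun h0 hs => ?_, fun h0 s hs => ?_⟩
    · obtain ⟨j, hj⟩ := ihA.ne
      refine ⟨k j, ?_⟩
      rw [h, Ne, map_eq_zero_iff _ (MvPolynomial.rename_injective _ i.injective)]
      exact hj
    · obtain ⟨t, ht, h1⟩ := ihA.pole s hs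
      exact ⟨t, ht, fm_equiv A B i k h _ _ h1⟩
    · exact fm_equiv A B i k h _ _ (ihA.one h0 hs)
    · obtain ⟨t, ht, h1⟩ := ihA.ref h0 s hs
      exact ⟨t, ht, fm_equiv A B i k h _ _ h1⟩

end Pool.Agent.Y230.TH
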