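import Pool.Agent.Y229.LPDefs
import Pool.Agent.W574.SM.ZetaDefs
import Pool.Agent.Y230.TS.Global

set_option autoImplicit false

/-! # Topological zeta functions of the Thom-Sebastiani sums `∑ y_j f_j(x) + g(z)`

Let `V_I(t)` be the function of the ideal `I = (f_j)` which is described in `Pool/Agent/Y229/LPDefs`
(the limit for `L → 1`, `e = t / (L - 1)`, of the volumes of the arcs with `ord I ≥ e`), and `V_g` the
one of the polynomial `g`. For `F = ∑ y_j f_j(x) + g(z)` let `U_e`, `W_e` and `W'_e` be the volumes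
for `I`, `g` and `F`. If `ord I = i` at an arc `x`, then `∑ y_j f_j(x)` is uniformly distributed in
`t ^ i ℂ[[t]]`; hence `L W'_(e + 1) - W'_e = U_(e + 1) (L W_(e + 1) - W_e)`, and in the limit
`V_F' + V_F = V_I (V_g' + V_g)` for `t > 0`; for `e = 0` one finds `W'_1 - 1 = U_1 (W_1 - 1)` in the
limit, that is, `c_F = V_I(0+) c_g`, where `c_g` is the Euler characteristic of the set `g ≠ 0`. The
Laplace transforms of `V_I` and `V_g' + V_g` are `(1 - Z_I(s)) / s` and
`(1 - (s + 1) Z_g(s)) / s + c_g`. -/

namespace Pool.Agent.Y230.TH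

open MvPolynomial Pool.Agent.W574.SM Pool.Agent.W574.CN Pool.Agent.W574.RO Pool.Agent.Y229
open Pool.Agent.W574.MO Pool.Agent.W425.SM Pool.Agent.W425.SV Pool.Agent.W422.GC
  Pool.Agent.W425.ND

/-- The family with the only member `∑_j y_j f_j(x)`, with further variables `y_j`. -/
@[reducible] noncomputable def univFam (A : Fam) : Fam :=
  ⟨A.ι ⊕ A.σ, Fin 1, fun _ => ∑ j, X (Sum.inl j) * rename Sum.inr (A.f j)⟩

/-- The family with the only member `∑_j y_j f_j(x) + g(z)`, with further variables `y_j`; the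
variables `x` and `z` are disjoint. -/
@[reducible] noncomputable def tsFam (A : Fam) (τ : Type) (g : MvPolynomial τ ℂ) : Fam :=
  ⟨(A.ι ⊕ A.σ) ⊕ τ, Fin 1, fun _ =>
    rename Sum.inl (∑ j, X (Sum.inl j) * rename Sum.inr (A.f j) : MvPolynomial (A.ι ⊕ A.σ) ℂ) +
      rename Sum.inr g⟩

/-- The value at `t = 0` of the exponential polynomial `∑_(α, k) v(α, k) t^k exp(- α t)`. -/
noncomputable def val0 (v : ℂ × ℕ →₀ ℂ) : ℂ := v.sum fun p c => if p.2 = 0 then c else 0

/-- `StrongHyp A Z`: `A` is one of the following hypersurfaces, and `Z` is its global topological zeta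
function: the plane curves, with `PlaneZeta`; the polynomials `∑_j a_j x ^ (v j) + h`, where `h` has
coefficients in the field `F` and its exponents lie in the convex hull of the `v j ≠ 0`, and the `a_j`
are algebraically independent over `F`, with the zeta function `topZetaG v R`, computed on the embedded
resolution which belongs to any smooth fan `R` on which the ideal `(x ^ (v j))_j` becomes principal. -/
inductive StrongHyp : Fam → RatFunc ℂ → Prop
  /-- plane curves -/
  | curve (g : MvPolynomial (Fin 2) ℂ) (hg : g ≠ 0) (Z : RatFunc ℂ)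
      (hZ : PlaneZeta (fun _ : Fin 1 => g) Z) : StrongHyp ⟨Fin 2, Fin 1, fun _ => g⟩ Z
  /-- polynomials with very general coefficients at the vertices of the Newton polytope -/
  | generic (r N : ℕ) (hr : 1 ≤ r) (F : Subfield ℂ) (v : Fin r → Fin N → ℕ)
      (hv : Function.Injective v) (hv0 : ∀ j, v j ≠ 0) (h : MvPolynomial (Fin N) F)
      (hh : ∀ w ∈ h.support, Hull v w) (a : Fin r → ℂ) (ha : AlgebraicIndependent F a)
      (R : SmoothFan N) (hR : Principal v R) :
      StrongHyp ⟨Fin N, Fin 1, fun _ => sparse v a + MvPolynomial.map (algebraMap F ℂ) h⟩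
        (topZetaG v R)

/-- `WeakHyp A Z`: as in `StrongHyp`, with in addition all the polynomials `g = ∑_j a_j x ^ (v j)`,
`g(0) = 0`, which are nondegenerate with respect to their Newton polytope, whose topological zeta
function has at most a simple pole at `-1` (and no pole at the natural numbers, which holds for all
topological zeta functions). -/
inductive WeakHyp : Fam → RatFunc ℂ → Prop
  /-- the hypersurfaces in `StrongHyp` -/
  | strong (A : Fam) (Z : RatFunc ℂ) (h : StrongHyp A Z) : WeakHyp A Z
  /-- nondegenerate polynomials -/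
  | nondeg (r N : ℕ) (hr : 1 ≤ r) (v : Fin r → Fin N → ℕ) (a : Fin r → ℂ)
      (hv : Function.Injective v) (hv0 : ∀ j, v j ≠ 0) (hnd : Nondeg v a) (R : SmoothFan N)
      (hR : Principal v R)
      (h1 : ∀ i : ℕ, ((RatFunc.X + 1) * topZetaG v R).denom.eval ((i : ℂ) - 1) ≠ 0) :
      WeakHyp ⟨Fin N, Fin 1, fun _ => sparse v a⟩ (topZetaG v R)

/-- Two classes of ideals, given by generators, together with their topological zeta functions:
`TT At HAt false A Z` for ideals and `TT At HAt true A Z` for principal ideals (hypersurfaces). They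
are the smallest classes with the following properties. -/
inductive TT (At HAt : Fam → RatFunc ℂ → Prop) : Bool → Fam → RatFunc ℂ → Prop
  /-- the ideals of the given class -/
  | atom (A : Fam) (Z : RatFunc ℂ) (h : At A Z) : TT At HAt false A Z
  /-- the hypersurfaces of the given class -/
  | hatom (A : Fam) (Z : RatFunc ℂ) (h : HAt A Z) : TT At HAt true A Z
  /-- a hypersurface is a principal ideal -/
  | hyp (A : Fam) (Z : RatFunc ℂ) (h : TT At HAt true A Z) : TT At HAt false A Z
  /-- the sum of two ideals in disjoint sets of variables: if `1 - Z = s ∫ V(t) exp(- s t) dt` and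
  `1 - W = s ∫ W'(t) exp(- s t) dt`, where no constant function occurs in the exponential
  polynomials `V`, `W'` (given by `v` and `w`), then the topological zeta function of the sum is
  `1 - s ∫ V(t) W'(t) exp(- s t) dt` -/
  | sum (A B : Fam) (Z W : RatFunc ℂ) (v w : ℂ × ℕ →₀ ℂ) (hv : 1 - Z = RatFunc.X * lap v)
      (hw : 1 - W = RatFunc.X * lap w) (hv0 : ∀ p ∈ v.support, p.1 ≠ 0)
      (hw0 : ∀ p ∈ w.support, p.1 ≠ 0) (hA : TT At HAt false A Z) (hB : TT At HAt false B W) :
      TT At HAt false (A.sum B) (1 - RatFunc.X * lap2 v w)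
  /-- the product of two ideals, or of two polynomials, in disjoint sets of variables -/
  | mul (c : Bool) (A B : Fam) (Z W : RatFunc ℂ) (hA : TT At HAt c A Z) (hB : TT At HAt c B W) :
      TT At HAt c (A.mul B) (Z * W)
  /-- the polynomial `∑ y_j f_j(x)` has the topological zeta function `Z / (s + 1)` -/
  | univ (A : Fam) (Z : RatFunc ℂ) (hA : TT At HAt false A Z) :
      TT At HAt true (univFam A) (Z * (RatFunc.X + 1)⁻¹)
  /-- the Thom-Sebastiani sum `∑ y_j f_j(x) + g(z)`: if `1 - Z = s ∫ V(t) exp(- s t) dt` and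
  `1 - (s + 1) W = s ∫ U(t) exp(- s t) dt - c s`, where no constant function occurs in the
  exponential polynomials `V`, `U` (given by `v` and `w`), then
  `1 - (s + 1) Z_F = s ∫ V(t) U(t) exp(- s t) dt - c V(0) s` -/
  | ts (A : Fam) (τ : Type) (g : MvPolynomial τ ℂ) (Z W : RatFunc ℂ) (v w : ℂ × ℕ →₀ ℂ) (c : ℂ)
      (hv : 1 - Z = RatFunc.X * lap v)
      (hw : 1 - (RatFunc.X + 1) * W = RatFunc.X * (lap w - RatFunc.C c))
      (hv0 : ∀ p ∈ v.support, p.1 ≠ 0) (hw0 : ∀ p ∈ w.support, p.1 ≠ 0)
      (hA : TT At HAt false A Z) (hg : TT At HAt true ⟨τ, Fin 1, fun _ => g⟩ W) :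
      TT At HAt true (tsFam A τ g)
        ((1 - RatFunc.X * (lap2 v w - RatFunc.C (c * val0 v))) * (RatFunc.X + 1)⁻¹)
  /-- variables which do not occur may be dropped -/
  | drop (σ κ : Type) (g : MvPolynomial σ ℂ) (Z : RatFunc ℂ)
      (h : TT At HAt true ⟨σ ⊕ κ, Fin 1, fun _ => rename Sum.inl g⟩ Z) :
      TT At HAt true ⟨σ, Fin 1, fun _ => g⟩ Z
  /-- the variables and the generators may be indexed differently -/
  | equiv (c : Bool) (A B : Fam) (i : A.σ ≃ B.σ) (k : A.ι ≃ B.ι)
      (h : ∀ j, B.f (k j) = rename i (A.f j)) (Z : RatFunc ℂ) (hA : TT At HAt c A Z) :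
      TT At HAt c B Z

end Pool.Agent.Y230.TH
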