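import Pool.Agent.Y230.TH.Top
import Pool.Agent.Y228.AT.Top

set_option autoImplicit false
set_option linter.unusedSectionVars false
set_option linter.unusedVariables false

/-! # Topological Thom-Sebastiani sums: the final statements -/

namespace Pool.Agent.Y230.TH

open MvPolynomial Pool.Agent.W574.SM Pool.Agent.W574.CN Pool.Agent.W574.RO Pool.Agent.Y229
open Pool.Agent.W574.MO Pool.Agent.W425.SM Pool.Agent.W425.SV Pool.Agent.W422.GC
open Pool.Agent.W425.ND Pool.Agent.W574.HS Pool.Agent.Y230.PS Pool.Agent.TH192.DT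
open Pool.Agent.Y228.AT (AllGlobal allGlobal_poles)
open Pool.Agent.H628R4.TP (IsBFunction)

/-- `WeakAt A Z`: the ideals in `AllGlobal` or `WeakGlobal`. -/
inductive WeakAt : Fam → RatFunc ℂ → Prop
  /-- the ideals in `AllGlobal` -/
  | strong (A : Fam) (Z : RatFunc ℂ) (h : AllGlobal A Z) : WeakAt A Z
  /-- the ideals in `WeakGlobal` -/
  | weak (A : Fam) (Z : RatFunc ℂ) (h : WeakGlobal A Z) : WeakAt A Z

theorem basic_fin (A : Fam) (Z : RatFunc ℂ) (h : Basic (fun _ f Z => PlaneZeta f Z) A Z) :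
    Finite A.σ :=
  (basic_poles FoG (fun A d hd α hα => hα) _
    (fun r f Z hf hZ s₀ hs b hb => plane_main f b hb Z hZ s₀ hs) A Z h).1

theorem ag_fin (A : Fam) (Z : RatFunc ℂ) (h : AllGlobal A Z) : Finite A.σ := by
  cases h with
  | basic _ _ h => exact basic_fin A Z h
  | rees σ ι J f hf a k χ h => exact Finite.of_fintype σ
  | generic r k N hr F π w hw h hh a ha R hR => exact inferInstanceAs (Finite (Fin N))

theorem wg_fin (A : Fam) (Z : RatFunc ℂ) (h : WeakGlobal A Z) : Finite A.σ := by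
  cases h with
  | basic _ _ h => exact basic_fin A Z h
  | nondeg r N hr v a hv hv0 hnd R hR => exact inferInstanceAs (Finite (Fin N))

theorem ag_at (T : AddSubmonoid ℂ) (A : Fam) (Z : RatFunc ℂ) (h : AllGlobal A Z) :
    Finite A.σ ∧ (∃ j, A.f j ≠ 0) ∧
      ∀ s₀ : ℂ, Z.denom.eval s₀ = 0 → ∃ t ∈ T, FoG A (s₀ - t) := by
  obtain ⟨h1, h2⟩ := allGlobal_poles A Z h
  exact ⟨ag_fin A Z h, h1, fun s hs => ⟨0, T.zero_mem, by rw [sub_zero]; exact h2 s hs⟩⟩

theorem wa_at (A : Fam) (Z : RatFunc ℂ) (h : WeakAt A Z) :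
    Finite A.σ ∧ (∃ j, A.f j ≠ 0) ∧
      ∀ s₀ : ℂ, Z.denom.eval s₀ = 0 → ∃ t ∈ natC, FoG A (s₀ - t) := by
  cases h with
  | strong h => exact ag_at natC A Z h
  | weak h =>
    obtain ⟨h1, h2⟩ := weakGlobal_poles A Z h
    refine ⟨wg_fin A Z h, h1, fun s hs => ?_⟩
    obtain ⟨i, hi⟩ := h2 s hs
    exact ⟨i, (mem_natC _).2 ⟨i, rfl⟩, hi⟩

/-- **The strong conjecture for the ideals in the class.** -/
theorem tt_ideal (A : Fam) (Z : RatFunc ℂ) (h : TT AllGlobal StrongHyp false A Z)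
    (b : Polynomial ℂ) (hb : IsFunctionalEq A.f b) (s₀ : ℂ) (hs : Z.denom.eval s₀ = 0) :
    b.eval s₀ = 0 := by
  obtain ⟨t, ht, h1⟩ := (tt_closure ⊥ AllGlobal StrongHyp (fun A Z h => ag_at ⊥ A Z h)
    (fun A Z h => strongHyp_cl ⊥ A Z h) false _ Z h).pole s₀ hs
  rw [AddSubmonoid.mem_bot] at ht
  rw [ht, sub_zero, fm_one] at h1
  exact h1 b hb

/-- **The strong conjecture for the hypersurfaces in the class.** -/
theorem tt_strong {σ : Type} (F : MvPolynomial σ ℂ) (Z : RatFunc ℂ)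
    (h : TT AllGlobal StrongHyp false ⟨σ, Fin 1, fun _ => F⟩ Z) (b : Polynomial ℂ)
    (hb : IsBFunction F b) (s₀ : ℂ) (hs : Z.denom.eval s₀ = 0) : b.eval s₀ = 0 := by
  obtain ⟨t, ht, h1⟩ := (tt_closure ⊥ AllGlobal StrongHyp (fun A Z h => ag_at ⊥ A Z h)
    (fun A Z h => strongHyp_cl ⊥ A Z h) false _ Z h).pole s₀ hs
  rw [AddSubmonoid.mem_bot] at ht
  rw [ht, sub_zero, fm_one] at h1
  exact h1 b (single_of_isB F b hb)

/-- **The weak conjecture for the hypersurfaces in the class.** -/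
theorem tt_weak {σ : Type} (F : MvPolynomial σ ℂ) (Z : RatFunc ℂ)
    (h : TT WeakAt WeakHyp false ⟨σ, Fin 1, fun _ => F⟩ Z) (b : Polynomial ℂ)
    (hb : IsBFunction F b) (s₀ : ℂ) (hs : Z.denom.eval s₀ = 0) :
    ∃ i : ℕ, b.eval (s₀ - i) = 0 := by
  obtain ⟨t, ht, h1⟩ := (tt_closure natC WeakAt WeakHyp wa_at weakHyp_cl false _ Z h).pole s₀ hs
  obtain ⟨i, rfl⟩ := (mem_natC _).1 ht
  rw [fm_one] at h1
  exact ⟨i, h1 b (single_of_isB F b hb)⟩

section

variable {σ T : Type} [Fintype T] [DecidableEq T] {κ : T → Type} [∀ t, Fintype (κ t)]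

/-- **Products of powers of forms: the global strong conjecture.** -/
theorem tt_strong_pow [Finite σ] (a : T → ℕ) (ha : ∀ t, 1 ≤ a t) [Nonempty T]
    (f : (t : T) → κ t → MvPolynomial σ ℂ) (Z' : RatFunc ℂ)
    (h : TT AllGlobal StrongHyp false (powFam a f) Z')
    (b : Polynomial ℂ) (hb : IsBFunction (powProd a f) b)
    (s₀ : ℂ) (hs : (Z' * ∏ t, fac (a t) 1).denom.eval s₀ = 0) : b.eval s₀ = 0 := by
  classical
  have : Fintype σ := Fintype.ofFinite σ
  have hC := tt_closure ⊥ AllGlobal StrongHyp (fun A Z h => ag_at ⊥ A Z h)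
    (fun A Z h => strongHyp_cl ⊥ A Z h) false _ Z' h
  have hf := powFam_ne a ha f hC.ne
  have hP := powData_global a f hf b hb
  rcases prod_fac_pole a ha Z' s₀ hs with h2 | ⟨t, rfl⟩
  · obtain ⟨u, hu, h3⟩ := hC.pole s₀ h2
    rw [AddSubmonoid.mem_bot] at hu
    rw [hu, sub_zero, fm_one] at h3
    refine h3 b ?_
    obtain ⟨P, hP⟩ := hb
    obtain ⟨t0⟩ := (inferInstance : Nonempty T)
    exact fe_of_locEq (hat 1 0) (by rw [hat_one, if_pos rfl]) _ b
      (locEq_of_powProd a f t0 (by have := ha t0; omega) b 1 P fun s => by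
        rw [one_mul]
        exact hP s)
  · exact hP.strict t 0 (by have := ha t; omega)

/-- **Products of powers of forms: the global weak conjecture.** -/
theorem tt_weak_pow [Finite σ] (a : T → ℕ) (ha : ∀ t, 1 ≤ a t) [Nonempty T]
    (f : (t : T) → κ t → MvPolynomial σ ℂ) (Z' : RatFunc ℂ)
    (h : TT WeakAt WeakHyp false (powFam a f) Z')
    (b : Polynomial ℂ) (hb : IsBFunction (powProd a f) b)
    (s₀ : ℂ) (hs : (Z' * ∏ t, fac (a t) 1).denom.eval s₀ = 0) :
    ∃ i : ℕ, b.eval (s₀ - i) = 0 := by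
  classical
  have : Fintype σ := Fintype.ofFinite σ
  have hC := tt_closure natC WeakAt WeakHyp wa_at weakHyp_cl false _ Z' h
  have hf := powFam_ne a ha f hC.ne
  rcases prod_fac_pole a ha Z' s₀ hs with h2 | ⟨t, rfl⟩
  · obtain ⟨u, hu, h3⟩ := hC.pole s₀ h2
    obtain ⟨i, rfl⟩ := (mem_natC _).1 hu
    rw [fm_one] at h3
    refine ⟨i, h3 b ?_⟩
    obtain ⟨P, hP⟩ := hb
    obtain ⟨t0⟩ := (inferInstance : Nonempty T)
    exact fe_of_locEq (hat 1 0) (by rw [hat_one, if_pos rfl]) _ b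
      (locEq_of_powProd a f t0 (by have := ha t0; omega) b 1 P fun s => by
        rw [one_mul]
        exact hP s)
  · refine ⟨0, ?_⟩
    have h2 := (powData_global a f hf b hb).strict t 0 (by have := ha t; omega)
    simpa using h2

end

end Pool.Agent.Y230.TH
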